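import Pool.Agent.Q299.RM.Core
import Pool.Agent.H176.DT.H13

/-!
# Stages over a vertical divisor with independent coordinates
-/

set_option autoImplicit false

universe u

namespace Pool.Agent.Q299.SS

open Pool.Agent.W418.LU2 IsLocalRing
open Pool.Agent.H176.DT Pool.Agent.TH188.ARC Pool.Agent.Q299.RM

section vert

variable {F : Type u} [Field F] {ι : Type} [Fintype ι]

lemma inv_matrix {V : ValuationSubring F} {x x' : ι → F} (hx : ∀ i, x i ≠ 0)
    (hind : ∀ δ : ι → ℤ, V.valuation (mo x δ) = 1 → δ = 0) {δ a : ι → ι → ℤ}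
    (hδ : ∀ j, x' j = mo x (δ j)) (ha : ∀ i, x i = mo x' (a i)) [DecidableEq ι] :
    (Matrix.of δ) * (Matrix.of a) = 1 := by
  classical
  have h1 : (Matrix.of a) * (Matrix.of δ) = 1 := by
    ext i l
    have h2 : mo x (∑ j, a i j • δ j - Pi.single i 1) = 1 := by
      rw [sub_eq_add_neg, mo_add hx, ← mo_comp hx hδ, ← ha, mo_neg, mo_single]
      exact mul_inv_cancel₀ (hx i)
    have h3 := hind _ (by rw [h2, map_one])
    have h4 := congrFun h3 l
    rw [Pi.sub_apply, Pi.zero_apply, sub_eq_zero, Finset.sum_apply] at h4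
    rw [Matrix.mul_apply]
    simp only [Matrix.of_apply]
    rw [Matrix.one_apply]
    simp only [Pi.smul_apply, smul_eq_mul] at h4
    rw [h4, Pi.single_apply]
    by_cases h5 : i = l
    · rw [if_pos h5, if_pos h5.symm]
    · rw [if_neg h5, if_neg fun h => h5 h.symm]
  exact mul_eq_one_comm.1 h1

lemma inv_ind {V : ValuationSubring F} {x x' : ι → F} (hx : ∀ i, x i ≠ 0)
    (hind : ∀ δ : ι → ℤ, V.valuation (mo x δ) = 1 → δ = 0) {δ a : ι → ι → ℤ}
    (hδ : ∀ j, x' j = mo x (δ j)) (ha : ∀ i, x i = mo x' (a i)) (ε : ι → ℤ)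
    (hε : V.valuation (mo x' ε) = 1) : ε = 0 := by
  classical
  have h1 := inv_matrix hx hind hδ ha
  rw [mo_comp hx hδ] at hε
  have h2 := hind _ hε
  have h3 : Matrix.vecMul ε (Matrix.of δ) = 0 := by
    rw [← h2]
    funext l
    rw [Matrix.vecMul, dotProduct, Finset.sum_apply]
    exact Finset.sum_congr rfl fun j _ => rfl
  calc ε = Matrix.vecMul ε (1 : Matrix ι ι ℤ) := (Matrix.vecMul_one _).symm
    _ = 0 := by rw [← h1, ← Matrix.vecMul_vecMul, h3, Matrix.zero_vecMul]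

/-- A stage such that all coordinates divide `p`; the values of the coordinates are independent. -/
theorem vert_stage' (V : ValuationSubring F) (A : Subring F) (h : SU V A) (p : F) (hp0 : p ≠ 0)
    (hpV : ∀ z : F, ∃ n : ℕ, p ^ n * z ∈ V) (G : Set F) (hG : G.Finite)
    (hG0 : ∀ g ∈ G, g ≠ 0) :
    ∃ (T : Set F) (s : ℕ) (x : Fin s → F), St V A T x ∧ (∀ i, (x i)⁻¹ ∉ V) ∧
      (∀ δ : Fin s → ℤ, V.valuation (mo x δ) = 1 → δ = 0) ∧
      (∀ g ∈ G, PMon (PP V A T) x g ∧ (g ∈ V → g ∈ PP V A T)) ∧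
      ∃ (u : F) (η : Fin s → ℤ), u ∈ PP V A T ∧ u⁻¹ ∈ PP V A T ∧ u ≠ 0 ∧ p = u * mo x η ∧
        ∀ i, 0 < η i := by
  classical
  obtain ⟨T, s, x, hSt, hxV, hind, hmon⟩ := p_ind V A h (G ∪ {p}) (hG.union (Set.finite_singleton p))
    (by
      rintro g (hg | rfl)
      · exact hG0 g hg
      · exact hp0)
  have hx0 := hSt.reg.ne
  choose N hN using fun i => hpV (x i)⁻¹
  set G' : Set F := (G ∪ {p}) ∪ Set.range fun i => p ^ N i * (x i)⁻¹ with hG'
  have hpm := (hmon p (Or.inr rfl)).1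
  have hxm : ∀ i, PMon (PP V A T) x (x i) := fun i =>
    ⟨1, one_ne_zero, Subring.one_mem _, by rw [inv_one]; exact Subring.one_mem _,
      Pi.single i 1, by rw [mo_single, one_mul]⟩
  have hpow : ∀ n : ℕ, PMon (PP V A T) x (p ^ n) := by
    intro n
    induction n with
    | zero => rw [pow_zero]; exact PMon.one
    | succ n ih => rw [pow_succ]; exact ih.mul hx0 hpm
  obtain ⟨T', x', hTT', hSt', href, hδ, hmon', hmem'⟩ := p_ref V A T x hSt G'
    ((hG.union (Set.finite_singleton p)).union (Set.finite_range _)) (by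
      rintro g (hg | ⟨i, rfl⟩)
      · exact (hmon g hg).1
      · exact (hpow (N i)).mul hx0 (hxm i).inv)
  choose δ hδ using hδ
  have ha : ∀ i, ∃ a : Fin s → ℤ, 0 ≤ a ∧ x i = mo x' a := by
    intro i
    obtain ⟨a, ha0, ha1⟩ := href (Pi.single i 1) (by
      intro j
      rw [Pi.single_apply]
      split_ifs <;> simp)
    exact ⟨a, ha0, by rw [← ha1, mo_single]⟩
  choose a ha0 ha using ha
  have hkey := inv_subst hx0 hind hδ ha
  have hreg' := hSt'.reg
  have hPV : PP V A T' ≤ V.toSubring := hreg'.PA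
  have hx'V : ∀ j, (x' j)⁻¹ ∉ V := by
    intro j hj
    obtain ⟨i, hi⟩ := hkey j
    have h1 : V.valuation (x' j) = 1 := by
      apply le_antisymm
      · exact (V.valuation_le_one_iff _).2 (hPV (hreg'.mem j))
      · have h2 := (V.valuation_le_one_iff _).2 hj
        rw [map_inv₀] at h2
        exact (inv_le_one₀ (zero_lt_iff.2 ((_root_.map_ne_zero _).2 (hreg'.ne j)))).1 h2
    rw [hδ j] at h1
    have h2 := hind _ h1
    rw [h2] at hi
    exact hi (by rw [Pi.zero_apply, zero_mul])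
  obtain ⟨u, hu0, hu1, hu2, η, hη⟩ := hmon' p hpm
  refine ⟨T', s, x', hSt', hx'V, fun ε hε => inv_ind hx0 hind hδ ha ε hε,
    fun g hg => ⟨hmon' g (hmon g (Or.inl hg)).1,
    hmem' g (Or.inl (Or.inl hg))⟩, u, η, hu1, hu2, hu0, hη, fun j => ?_⟩
  obtain ⟨i, hi⟩ := hkey j
  have haij : 0 < a i j := lt_of_le_of_ne (ha0 i j) fun h => hi (by rw [← h, mul_zero])
  have h1 : p ^ N i * (x i)⁻¹ ∈ PP V A T' := hmem' _ (Or.inr ⟨i, rfl⟩) (hN i)
  have h2 : mo x' ((N i : ℤ) • η - a i) = (u⁻¹) ^ N i * (p ^ N i * (x i)⁻¹) := by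
    rw [sub_eq_add_neg, mo_add hreg'.ne, mo_neg, ← ha, Pool.Agent.Y67.DT.mo_zsmul, zpow_natCast,
      ← mul_assoc, ← mul_pow]
    congr 2
    rw [hη, ← mul_assoc, inv_mul_cancel₀ hu0, one_mul]
  have h3 := p_expo hreg' ((N i : ℤ) • η - a i) (by
    rw [h2]
    exact Subring.mul_mem _ (Subring.pow_mem _ hu2 _) h1) j (hx'V j)
  have h4 : 0 < (N i : ℤ) * η j := by
    rw [Pi.sub_apply, Pi.smul_apply, smul_eq_mul] at h3
    linarith
  exact pos_of_mul_pos_right h4 (Int.natCast_nonneg _)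

end vert

section tr

variable {F L : Type u} [Field F] [Field L] {D : Subring F} {π : D →+* L}
  {W : ValuationSubring L} {V V' : ValuationSubring F}

lemma tr_le (h : Tr D π W V) (h' : Tr D π W V') {B : Subring F} (hBD : B ≤ D)
    (hBV : B ≤ V.toSubring) : B ≤ V'.toSubring := fun z hz =>
  (tr_mem h' (Im.of_mem (hBD hz))).2 ((tr_mem h (Im.of_mem (hBD hz))).1 (hBV hz))

/-- The local rings do not depend on the choice of the valuation ring. -/
lemma lo_tr (h : Tr D π W V) (h' : Tr D π W V') {B : Subring F} (hBD : B ≤ D)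
    (hBV : B ≤ V.toSubring) : lo V'.toSubring B = lo V.toSubring B := by
  have hBV' := tr_le h h' hBD hBV
  ext z
  constructor
  · rintro ⟨a, ha, b, hb, hb0, hbV, rfl⟩
    have h1 := (tr_unit h' (Im.of_mem (π := π) (hBD hb)) (hBV' hb)).1 ⟨hb0, hbV⟩
    exact ⟨a, ha, b, hb, hb0, ((tr_unit h (Im.of_mem (π := π) (hBD hb)) (hBV hb)).2 h1).2, rfl⟩
  · rintro ⟨a, ha, b, hb, hb0, hbV, rfl⟩
    have h1 := (tr_unit h (Im.of_mem (π := π) (hBD hb)) (hBV hb)).1 ⟨hb0, hbV⟩
    exact ⟨a, ha, b, hb, hb0, ((tr_unit h' (Im.of_mem (π := π) (hBD hb)) (hBV' hb)).2 h1).2, rfl⟩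

lemma regP_tr (h : Tr D π W V) (h' : Tr D π W V') {P : Subring F} (hPD : P ≤ D) {s : ℕ}
    {x : Fin s → F} (hP : RegP V.toSubring P x) : RegP V'.toSubring P x := by
  refine ⟨tr_le h h' hPD hP.PA, hP.ne, hP.mem, hP.reg, fun y hy hy0 hyV => ?_, hP.ind⟩
  have h1 := (tr_unit h' (Im.of_mem (π := π) (hPD hy)) (tr_le h h' hPD hP.PA hy)).1 ⟨hy0, hyV⟩
  exact hP.inv y hy hy0 ((tr_unit h (Im.of_mem (π := π) (hPD hy)) (hP.PA hy)).2 h1).2

end tr

section ind

/-- Independent elements lift to independent elements. -/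
lemma indN_lift {B C : Type u} [CommRing B] [IsLocalRing B] [CommRing C] [IsLocalRing C]
    (θ : B →+* C) (hθ : ∀ b : B, IsUnit (θ b) → IsUnit b) {ι : Type} [Fintype ι] {z : ι → B}
    (h : IndN fun i => θ (z i)) : IndN z := by
  have hloc : ∀ b : B, b ∈ maximalIdeal B ↔ θ b ∈ maximalIdeal C := by
    intro b
    rw [mem_maximalIdeal, mem_maximalIdeal, mem_nonunits_iff, mem_nonunits_iff]
    exact not_congr ⟨fun hb => hb.map θ, hθ b⟩
  intro c hc hs i
  rw [hloc]
  refine h (fun i => θ (c i)) (fun i hi => ?_) ?_ i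
  · rw [hc i fun h1 => hi ((hloc _).1 h1), map_zero]
  · have h1 : θ (∑ i, c i * z i) ∈ maximalIdeal C ^ 2 := by
      have h2 : Ideal.map θ (maximalIdeal B) ≤ maximalIdeal C := by
        rw [Ideal.map_le_iff_le_comap]
        intro b hb
        exact (hloc b).1 hb
      have h3 : Ideal.map θ (maximalIdeal B ^ 2) ≤ maximalIdeal C ^ 2 := by
        rw [Ideal.map_pow]
        exact Ideal.pow_right_mono h2 2
      exact h3 (Ideal.mem_map_of_mem θ hs)
    rw [map_sum] at h1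
    simpa only [map_mul] using h1

end ind

end Pool.Agent.Q299.SS
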