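import Pool.Agent.Q299.SS.A1

/-!
# Stages over a regular point of the generic fibre
-/

set_option autoImplicit false

universe u

namespace Pool.Agent.Q299.SS

open Pool.Agent.W418.LU2 Pool.Agent.TH188.ARC IsLocalRing
open Pool.Agent.TH188.QS (norm_params ic_lo noeth_cl noeth_lo exists_den)
open Pool.Agent.H176.DT (SU PP)
open Pool.Agent.Q299.RM

section bd

variable {F : Type u} [Field F]

/-- The element `f` and its inverse have denominators which divide powers of `p`. -/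
def Bd (A P : Subring F) (p f : F) : Prop :=
  f ≠ 0 ∧ ∃ e ∈ A, e ≠ 0 ∧ e * f ∈ A ∧ ∃ n : ℕ, p ^ n * e⁻¹ ∈ P ∧ p ^ n * (e * f)⁻¹ ∈ P

variable {A P : Subring F} {p : F}

lemma Bd.one : Bd A P p 1 :=
  ⟨one_ne_zero, 1, A.one_mem, one_ne_zero, by rw [mul_one]; exact A.one_mem, 0, by
    rw [pow_zero, inv_one, mul_one]; exact P.one_mem, by
    rw [pow_zero, mul_one, inv_one, mul_one]; exact P.one_mem⟩

lemma Bd.inv {f : F} (h : Bd A P p f) : Bd A P p f⁻¹ := by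
  obtain ⟨h0, e, he, he0, hef, n, h1, h2⟩ := h
  have h3 : e * f * f⁻¹ = e := by rw [mul_assoc, mul_inv_cancel₀ h0, mul_one]
  exact ⟨inv_ne_zero h0, e * f, hef, mul_ne_zero he0 h0, by rw [h3]; exact he, n, h2, by
    rw [h3]; exact h1⟩

lemma Bd.mul {f g : F} (h : Bd A P p f) (h' : Bd A P p g) : Bd A P p (f * g) := by
  obtain ⟨h0, e, he, he0, hef, n, h1, h2⟩ := h
  obtain ⟨h0', e', he', he0', hef', n', h1', h2'⟩ := h'
  refine ⟨mul_ne_zero h0 h0', e * e', A.mul_mem he he', mul_ne_zero he0 he0', ?_, n + n', ?_, ?_⟩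
  · have : e * e' * (f * g) = e * f * (e' * g) := by ring
    rw [this]
    exact A.mul_mem hef hef'
  · have : p ^ (n + n') * (e * e')⁻¹ = p ^ n * e⁻¹ * (p ^ n' * e'⁻¹) := by
      rw [pow_add, mul_inv]
      ring
    rw [this]
    exact P.mul_mem h1 h1'
  · have : p ^ (n + n') * (e * e' * (f * g))⁻¹ = p ^ n * (e * f)⁻¹ * (p ^ n' * (e' * g)⁻¹) := by
      rw [pow_add]
      simp only [mul_inv]
      ring
    rw [this]
    exact P.mul_mem h2 h2'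

lemma Bd.pow {f : F} (h : Bd A P p f) (n : ℕ) : Bd A P p (f ^ n) := by
  induction n with
  | zero => rw [pow_zero]; exact Bd.one
  | succ n ih => rw [pow_succ]; exact ih.mul h

lemma Bd.zpow {f : F} (h : Bd A P p f) (n : ℤ) : Bd A P p (f ^ n) := by
  rcases Int.eq_nat_or_neg n with ⟨k, rfl | rfl⟩
  · rw [zpow_natCast]
    exact h.pow k
  · rw [zpow_neg, zpow_natCast]
    exact (h.pow k).inv

lemma Bd.mo {ι : Type} [Fintype ι] {x : ι → F} (h : ∀ i, Bd A P p (x i)) (δ : ι → ℤ) :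
    Bd A P p (mo x δ) := by
  classical
  have h1 : ∀ S : Finset ι, Bd A P p (∏ i ∈ S, x i ^ δ i) := by
    intro S
    induction S using Finset.induction_on with
    | empty => rw [Finset.prod_empty]; exact Bd.one
    | insert a S ha ih => rw [Finset.prod_insert ha]; exact ((h a).zpow _).mul ih
  exact h1 _

lemma Bd.self (hpA : p ∈ A) (hpP : p ∈ P) (hp0 : p ≠ 0) : Bd A P p p :=
  ⟨hp0, 1, A.one_mem, one_ne_zero, by rw [one_mul]; exact hpA, 1, by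
    rw [pow_one, inv_one, mul_one]; exact hpP, by
    rw [pow_one, one_mul, mul_inv_cancel₀ hp0]; exact P.one_mem⟩

/-- Denominators of elements of the local ring. -/
lemma Bd.of_lo {V : ValuationSubring F} {T : Set F} (hV : Subring.closure ((A : Set F) ∪ T) ≤
      V.toSubring) {β : F} (hβA : β ∈ A)
    (hβ0 : β ≠ 0) (hTβ : ∀ t ∈ T, β * t ∈ A) {n : ℕ} (hn : p ^ n * β⁻¹ ∈ PP V A T) {z : F}
    (hz : z ∈ PP V A T) (hz0 : z ≠ 0) {m : ℕ} (hm : p ^ m * z⁻¹ ∈ PP V A T) :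
    Bd A (PP V A T) p z := by
  obtain ⟨a, ha, b, hb, hb0, hbV, rfl⟩ := hz
  have ha0 : a ≠ 0 := left_ne_zero_of_mul hz0
  have hbP : b⁻¹ ∈ PP V A T := inv_mem_lo hV (le_lo _ _ hb) hb0 hbV
  obtain ⟨k, hk⟩ := exists_den (A := A) (T := T) hβA (fun t ht => by
    rw [mul_comm]; exact hTβ t ht) ha
  obtain ⟨l, hl⟩ := exists_den (A := A) (T := T) hβA (fun t ht => by
    rw [mul_comm]; exact hTβ t ht) hb
  have hk' := hk (k + l) (Nat.le_add_right _ _)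
  have hl' := hl (k + l) (Nat.le_add_left _ _)
  have h1 : β ^ (k + l) * b * (a * b⁻¹) = β ^ (k + l) * a := by
    field_simp
  refine ⟨hz0, β ^ (k + l) * b, hl', mul_ne_zero (pow_ne_zero _ hβ0) hb0, by rw [h1]; exact hk',
    n * (k + l) + m, ?_, ?_⟩
  · have h2 : p ^ (n * (k + l) + m) * (β ^ (k + l) * b)⁻¹ =
        (p ^ n * β⁻¹) ^ (k + l) * (p ^ m * (a * b⁻¹)⁻¹) * (a * b⁻¹) * b⁻¹ := by
      rw [pow_add, pow_mul, mul_pow, inv_pow, mul_inv]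
      field_simp
    rw [h2]
    exact Subring.mul_mem _ (Subring.mul_mem _ (Subring.mul_mem _ (Subring.pow_mem _ hn _) hm)
      ⟨a, ha, b, hb, hb0, hbV, rfl⟩) hbP
  · have h2 : p ^ (n * (k + l) + m) * (β ^ (k + l) * b * (a * b⁻¹))⁻¹ =
        (p ^ n * β⁻¹) ^ (k + l) * (p ^ m * (a * b⁻¹)⁻¹) * b⁻¹ := by
      rw [h1, pow_add, pow_mul, mul_pow, inv_pow, mul_inv]
      field_simp
    rw [h2]
    exact Subring.mul_mem _ (Subring.mul_mem _ (Subring.pow_mem _ hn _) hm) hbP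

end bd

variable {F L : Type u} [Field F] [Field L] {D : Subring F} {π : D →+* L}
  {W : ValuationSubring L} {V : ValuationSubring F}

lemma Im.zpow (hu : ∀ a : D, π a ≠ 0 → (a : F)⁻¹ ∈ D) {z : F} {w : L} (h : Im π z w) (hw : w ≠ 0)
    (n : ℤ) : Im π (z ^ n) (w ^ n) := by
  rcases Int.eq_nat_or_neg n with ⟨k, rfl | rfl⟩
  · rw [zpow_natCast, zpow_natCast]
    exact h.pow k
  · rw [zpow_neg, zpow_neg, zpow_natCast, zpow_natCast]
    exact (h.pow k).inv hu (pow_ne_zero _ hw)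

lemma Im.mo (hu : ∀ a : D, π a ≠ 0 → (a : F)⁻¹ ∈ D) {ι : Type} [Fintype ι] {x : ι → F} {xb : ι → L}
    (h : ∀ i, Im π (x i) (xb i)) (h0 : ∀ i, xb i ≠ 0) (δ : ι → ℤ) :
    Im π (mo x δ) (mo xb δ) := by
  classical
  have h1 : ∀ S : Finset ι, Im π (∏ i ∈ S, x i ^ δ i) (∏ i ∈ S, xb i ^ δ i) := by
    intro S
    induction S using Finset.induction_on with
    | empty => rw [Finset.prod_empty, Finset.prod_empty]; exact Im.one
    | insert a S ha ih =>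
      rw [Finset.prod_insert ha, Finset.prod_insert ha]
      exact (Im.zpow hu (h a) (h0 a) _).mul ih
  exact h1 _

theorem core_ss (h : Tr D π W V) (hreg : IsRegularLocalRing D)
    {A : Subring F} [IsNoetherianRing A] (hAD : A ≤ D) (hAV : A ≤ V.toSubring)
    (hfr : ∀ a ∈ D, ∃ b ∈ A, ∃ c ∈ A, ∃ hc : c ∈ D, π ⟨c, hc⟩ ≠ 0 ∧ a = b * c⁻¹)
    {p : F} {pb : L} (hpA : p ∈ A) (hp : Im π p pb) (hpb : pb ≠ 0)
    (hpW : ∀ z : L, ∃ n : ℕ, pb ^ n * z ∈ W) (hSU : SU W (imr π A)) :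
    ∃ (T : Set F) (s : ℕ) (X : Fin s → F) (xb : Fin s → L) (u : F) (ub : L) (γ : Fin s → ℤ)
      (β : F) (n : ℕ), T.Finite ∧ (∀ t ∈ T, t ∈ D) ∧ (∀ t ∈ T, t ∈ V) ∧ β ∈ A ∧ β ≠ 0 ∧
      (∀ t ∈ T, β * t ∈ A) ∧ (∀ i, Im π (X i) (xb i)) ∧ (∀ i, xb i ≠ 0) ∧ (∀ i, (xb i)⁻¹ ∉ W) ∧
      (∀ i, xb i ∈ W) ∧
      (∀ δ : Fin s → ℤ, W.valuation (mo xb δ) = 1 → δ = 0) ∧ Im π u ub ∧ ub ≠ 0 ∧ ub ∈ W ∧
      ub⁻¹ ∈ W ∧ (∀ i, 0 < γ i) ∧ p = u * mo X γ ∧ u ∈ PP V A T ∧ u⁻¹ ∈ PP V A T ∧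
      p ^ n * β⁻¹ ∈ PP V A T ∧ RegP V.toSubring (PP V A T) X ∧
      ∀ i, Bd A (PP V A T) p (X i) := by
  classical
  have hp0 : p ≠ 0 := hp.ne_zero hpb
  -- the parameters of the local ring
  obtain ⟨κ, _, x, hxA, hx0, hxgen, hxdim⟩ := exists_params h hreg hAD hfr
  obtain ⟨m₀, a, haA, ha0, hagen⟩ := exists_ker_gen (π := π) (B := A) hAD
  choose d hdD hda using fun k => hxgen (a k) (ha0 k)
  obtain ⟨s, hsA, sb, hsb0, hsI, hsd⟩ := comden_D hfr (ι := Fin m₀ × κ) (z := fun q => d q.1 q.2)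
    (fun q => hdD q.1 q.2)
  have hs𝔭 : ∀ w ∈ A, Im π w 0 → ∃ g : κ → F, (∀ i, g i ∈ A) ∧ s * w = ∑ i, g i * x i := by
    intro w hw hw0
    obtain ⟨c, hc, hwc⟩ := hagen w hw hw0
    refine ⟨fun i => ∑ k, c k * (d k i * s), fun i => A.sum_mem fun k _ =>
      A.mul_mem (hc k) (hsd (k, i)), ?_⟩
    have h1 : ∀ k, c k * a k = ∑ i, c k * d k i * x i := by
      intro k
      rw [hda k, Finset.mul_sum]
      exact Finset.sum_congr rfl fun i _ => by ring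
    rw [hwc]
    simp_rw [h1, Finset.sum_mul]
    rw [Finset.mul_sum, Finset.sum_comm]
    refine Finset.sum_congr rfl fun k _ => ?_
    rw [Finset.mul_sum]
    exact Finset.sum_congr rfl fun i _ => by ring
  -- the stage for the residue field
  set Ab := imr π A with hAb
  have hpbW : pb ∈ W := (tr_mem h hp).1 (hAV hpA)
  obtain ⟨M, hM⟩ := hpW sb⁻¹
  obtain ⟨Tb, n₁, xb, hSt, hxbV, hindb, hmon, ub, η, hub1, hub2, hub0, hpη, hη⟩ :=
    vert_stage' W Ab hSU pb hpb hpW {pb ^ M * sb⁻¹} (Set.finite_singleton _) (by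
      rintro g hg
      rw [Set.mem_singleton_iff.1 hg]
      exact mul_ne_zero (pow_ne_zero _ hpb) (inv_ne_zero hsb0))
  set Qb := PP W Ab Tb with hQb
  have hregb : RegP W.toSubring Qb xb := hSt.reg
  have hQbW : Qb ≤ W.toSubring := hregb.PA
  have hMQ : pb ^ M * sb⁻¹ ∈ Qb := (hmon _ (Set.mem_singleton _)).2 hM
  obtain ⟨βb, hβbA, ⟨vb, hvb0, hvb1, hvb2, γ, hγ⟩, hTbβ, -⟩ := hSt.den
  have hβb0 : βb ≠ 0 := by
    rw [hγ]
    exact mul_ne_zero hvb0 (mo_ne_zero hregb.ne γ)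
  obtain ⟨N, hN⟩ : ∃ N : ℕ, pb ^ N * βb⁻¹ ∈ Qb := by
    obtain ⟨n, hn⟩ : ∃ n : ℕ, ∀ i, γ i ≤ (n : ℤ) := by
      refine ⟨∑ i, (γ i).toNat, fun i => ?_⟩
      have h1 : (γ i).toNat ≤ ∑ i, (γ i).toNat :=
        Finset.single_le_sum (f := fun i => (γ i).toNat) (fun _ _ => Nat.zero_le _)
          (Finset.mem_univ i)
      exact (Int.self_le_toNat _).trans (by exact_mod_cast h1)
    refine ⟨n, ?_⟩
    have h1 : pb ^ n * βb⁻¹ = ub ^ n * vb⁻¹ * mo xb ((n : ℤ) • η - γ) := by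
      rw [sub_eq_add_neg, mo_add hregb.ne, mo_neg, Pool.Agent.Y67.DT.mo_zsmul, zpow_natCast, hpη,
        hγ, mul_pow, mul_inv]
      ring
    rw [h1]
    refine Qb.mul_mem (Qb.mul_mem (Qb.pow_mem hub1 _) hvb2) (mo_mem hregb.mem fun i => ?_)
    rw [Pi.zero_apply, Pi.sub_apply, Pi.smul_apply, smul_eq_mul]
    have h2 := hn i
    have h3 : (n : ℤ) * 1 ≤ (n : ℤ) * η i :=
      mul_le_mul_of_nonneg_left (hη i) (Int.natCast_nonneg _)
    linarith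
  -- the lifts
  obtain ⟨β, hβA, hβ⟩ := hβbA
  have hβ0 : β ≠ 0 := hβ.ne_zero hβb0
  have hβi : Im π β⁻¹ βb⁻¹ := hβ.inv h.unit hβb0
  have hlift : ∀ tb : L, ∃ a : F, tb ∈ Tb → a ∈ A ∧ Im π a (βb * tb) := by
    intro tb
    by_cases htb : tb ∈ Tb
    · obtain ⟨a, ha, h1⟩ := hTbβ tb htb
      exact ⟨a, fun _ => ⟨ha, h1⟩⟩
    · exact ⟨0, fun h => absurd h htb⟩
  choose lf hlf using hlift
  let T : Set F := (fun tb => lf tb * β⁻¹) '' Tb
  have hTI : ∀ tb ∈ Tb, Im π (lf tb * β⁻¹) tb := by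
    intro tb htb
    have h1 := (hlf tb htb).2.mul hβi
    have h2 : βb * tb * βb⁻¹ = tb := by
      field_simp
    rwa [h2] at h1
  have hTbW : ∀ tb ∈ Tb, tb ∈ W := fun tb htb =>
    hQbW (le_lo _ _ (Subring.subset_closure (Or.inr htb)))
  have hTD : ∀ t ∈ T, t ∈ D := by
    rintro _ ⟨tb, htb, rfl⟩
    exact (hTI tb htb).mem
  have hTV : ∀ t ∈ T, t ∈ V := by
    rintro _ ⟨tb, htb, rfl⟩
    exact (tr_mem h (hTI tb htb)).2 (hTbW tb htb)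
  have hTβ : ∀ t ∈ T, t * β ∈ A := by
    rintro _ ⟨tb, htb, rfl⟩
    change lf tb * β⁻¹ * β ∈ A
    rw [mul_assoc, inv_mul_cancel₀ hβ0, mul_one]
    exact (hlf tb htb).1
  have hTf : T.Finite := hSt.fin.image _
  set B := Subring.closure ((A : Set F) ∪ T) with hB
  have hAB : A ≤ B := fun z hz => Subring.subset_closure (Or.inl hz)
  have hBD : B ≤ D := by
    rw [hB, Subring.closure_le]
    rintro z (hz | hz)
    · exact hAD hz
    · exact hTD z hz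
  have hBV : B ≤ V.toSubring := by
    rw [hB, Subring.closure_le]
    rintro z (hz | hz)
    · exact hAV hz
    · exact hTV z hz
  have hBn : IsNoetherianRing B := noeth_cl hTf
  have himB : imr π B = Subring.closure ((Ab : Set L) ∪ Tb) := by
    refine imr_closure ?_ ?_
    · rintro z (hz | ⟨tb, htb, rfl⟩)
      · exact ⟨_, Or.inl ⟨z, hz, Im.of_mem (hAD hz)⟩, Im.of_mem (hAD hz)⟩
      · exact ⟨tb, Or.inr htb, hTI tb htb⟩
    · rintro w (⟨z, hz, hzw⟩ | hw)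
      · exact ⟨z, Or.inl hz, hzw⟩
      · exact ⟨_, Or.inr ⟨w, hw, rfl⟩, hTI w hw⟩
  have hQbB : Qb = lo W.toSubring (imr π B) := by rw [himB]
  -- the kernel
  obtain ⟨m, b, hbB, hb0, hbgen⟩ := exists_ker_gen (π := π) (B := B) hBD
  choose kk hkk using fun j => exists_den (A := A) (T := T) hβA hTβ (hbB j)
  set k := Finset.univ.sup kk with hk
  have hβb : ∀ j, ∀ l, k ≤ l → β ^ l * b j ∈ A := fun j l hl =>
    hkk j l ((Finset.le_sup (Finset.mem_univ j)).trans hl)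
  choose G hGA hG using fun j => hs𝔭 (β ^ k * b j) (hβb j k le_rfl)
    (Im.mul_zero (D.pow_mem hβ.mem k) (hb0 j))
  set s₁ := s * β ^ k with hs₁
  have hs₁A : s₁ ∈ A := A.mul_mem hsA (A.pow_mem hβA k)
  have hs₁I : Im π s₁ (sb * βb ^ k) := hsI.mul (hβ.pow k)
  have hs₁b0 : sb * βb ^ k ≠ 0 := mul_ne_zero hsb0 (pow_ne_zero _ hβb0)
  have hs₁G : ∀ j, s₁ * b j = ∑ i, G j i * x i := by
    intro j
    rw [← hG j, hs₁]
    ring
  -- divisibility of the powers of `p`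
  have hdiv : ∀ (c : F) (cb : L) (l : ℕ), c ∈ B → Im π c cb → cb ≠ 0 → pb ^ l * cb⁻¹ ∈ Qb →
      ∃ e ∈ B, ∃ f ∈ B, ∃ fb : L, Im π f fb ∧ fb ≠ 0 ∧ fb⁻¹ ∈ W ∧
        Im π (f * p ^ l - c * e) 0 := by
    intro c cb l hcB hc hc0 hl
    rw [hQbB] at hl
    obtain ⟨eb, ⟨e, heB, he⟩, fb, ⟨f, hfB, hf⟩, hfb0, hfbW, hl⟩ := hl
    refine ⟨e, heB, f, hfB, fb, hf, hfb0, hfbW, ?_⟩
    have h1 := (hf.mul (hp.pow l)).sub (hc.mul he)
    have h2 : fb * pb ^ l - cb * eb = 0 := by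
      have h3 : pb ^ l = eb * fb⁻¹ * cb := by
        rw [← hl]
        field_simp
      rw [h3]
      field_simp
      ring
    rwa [h2] at h1
  have hM₁ : pb ^ (M + N * k) * (sb * βb ^ k)⁻¹ ∈ Qb := by
    have h1 : pb ^ (M + N * k) * (sb * βb ^ k)⁻¹ = (pb ^ M * sb⁻¹) * (pb ^ N * βb⁻¹) ^ k := by
      rw [pow_add, pow_mul, mul_inv, mul_pow, inv_pow]
      ring
    rw [h1]
    exact Qb.mul_mem hMQ (Qb.pow_mem hN k)
  set M₁ := M + N * k with hM₁def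
  obtain ⟨e, heB, f, hfB, fb, hfI, hfb0, hfbW, hfe⟩ := hdiv s₁ _ M₁ (hAB hs₁A) hs₁I hs₁b0 hM₁
  obtain ⟨e₂, he₂B, f₂, hf₂B, f₂b, hf₂I, hf₂b0, hf₂bW, hfe₂⟩ := hdiv β βb N (hAB hβA) hβ hβb0 hN
  set Λ := max M₁ N with hΛ
  have hΛM : M₁ ≤ Λ := le_max_left _ _
  have hΛN : N ≤ Λ := le_max_right _ _
  -- the dilatations
  have hpi : Im π p⁻¹ pb⁻¹ := hp.inv h.unit hpb
  have hpl : ∀ l : ℕ, p ^ l ≠ 0 := fun l => pow_ne_zero l hp0
  have hpiD : ∀ l : ℕ, (p ^ l)⁻¹ ∈ D := fun l => by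
    rw [← inv_pow]
    exact D.pow_mem hpi.mem l
  let y : Fin m → F := fun j => b j * (p ^ (Λ + 1))⁻¹
  let z : κ → F := fun i => x i * (p ^ (Λ + 1 + M₁))⁻¹
  have hy0 : ∀ j, Im π (y j) 0 := fun j => Im.zero_mul (hb0 j) (hpiD _)
  have hz0 : ∀ i, Im π (z i) 0 := fun i => Im.zero_mul (hx0 i) (hpiD _)
  let T₂ : Set F := T ∪ (Set.range y ∪ Set.range z)
  have hT₂f : T₂.Finite := hTf.union ((Set.finite_range _).union (Set.finite_range _))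
  have hT₂V : ∀ t ∈ T₂, t ∈ V := by
    rintro t (ht | ⟨j, rfl⟩ | ⟨i, rfl⟩)
    · exact hTV t ht
    · exact (tr_mem h (hy0 j)).2 W.zero_mem
    · exact (tr_mem h (hz0 i)).2 W.zero_mem
  have hT₂D : ∀ t ∈ T₂, t ∈ D := by
    rintro t (ht | ⟨j, rfl⟩ | ⟨i, rfl⟩)
    · exact hTD t ht
    · exact (hy0 j).mem
    · exact (hz0 i).mem
  set B₂ := Subring.closure ((A : Set F) ∪ T₂) with hB₂
  have hB₂B : B₂ = Subring.closure ((B : Set F) ∪ (Set.range y ∪ Set.range z)) := by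
    rw [hB, Pool.Agent.TH188.QS.closure_closure_union, Set.union_assoc]
  have hBB₂ : B ≤ B₂ := by
    rw [hB₂B]
    exact fun w hw => Subring.subset_closure (Or.inl hw)
  have hyB₂ : ∀ j, y j ∈ B₂ := fun j => Subring.subset_closure (Or.inr (Or.inr (Or.inl ⟨j, rfl⟩)))
  have hzB₂ : ∀ i, z i ∈ B₂ := fun i => Subring.subset_closure (Or.inr (Or.inr (Or.inr ⟨i, rfl⟩)))
  have hB₂D : B₂ ≤ D := by
    rw [hB₂, Subring.closure_le]
    rintro w (hw | hw)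
    · exact hAD hw
    · exact hT₂D w hw
  have hB₂V : B₂ ≤ V.toSubring := by
    rw [hB₂, Subring.closure_le]
    rintro w (hw | hw)
    · exact hAV hw
    · exact hT₂V w hw
  have hB₂n : IsNoetherianRing B₂ := noeth_cl hT₂f
  have himB₂ : imr π B₂ = imr π B := by
    apply le_antisymm
    · have h1 : imr π B₂ = Subring.closure ((imr π B : Set L) ∪ {0}) := by
        rw [hB₂B]
        refine imr_closure ?_ ?_
        · rintro w (hw | ⟨j, rfl⟩ | ⟨i, rfl⟩)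
          · exact ⟨_, Or.inl ⟨w, hw, Im.of_mem (hBD hw)⟩, Im.of_mem (hBD hw)⟩
          · exact ⟨0, Or.inr rfl, hy0 j⟩
          · exact ⟨0, Or.inr rfl, hz0 i⟩
        · rintro w (⟨v, hv, hvw⟩ | hw)
          · exact ⟨v, Or.inl hv, hvw⟩
          · rw [Set.mem_singleton_iff.1 hw]
            exact ⟨0, Or.inl B.zero_mem, Im.zero⟩
      rw [h1, Subring.closure_le]
      rintro w (hw | hw)
      · exact hw
      · rw [Set.mem_singleton_iff.1 hw]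
        exact Subring.zero_mem _
    · exact imr_mono hBB₂
  set Q := lo V.toSubring B₂ with hQ
  have hB₂Q : B₂ ≤ Q := le_lo _ _
  have hQD : Q ≤ D := lo_le_D h hB₂D hB₂V
  -- divisibility in `B₂`
  have hdiv₂ : ∀ (c e f : F) (fb : L) (l : ℕ), l ≤ Λ → c ∈ B → e ∈ B → f ∈ B → Im π f fb →
      fb ≠ 0 → fb⁻¹ ∈ W → Im π (f * p ^ l - c * e) 0 →
      ∃ f' ∈ B₂, f' ≠ 0 ∧ f'⁻¹ ∈ Q ∧ p ^ l * f' = c * e := by
    intro c e f fb l hl hc he hf hfI hfb0 hfbW hz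
    have h1 : f * p ^ l - c * e ∈ B :=
      B.sub_mem (B.mul_mem hf (B.pow_mem (hAB hpA) l)) (B.mul_mem hc he)
    obtain ⟨g, hg, hgb⟩ := hbgen _ h1 hz
    set q := ∑ j, g j * y j with hq
    have hqB : q ∈ B₂ := B₂.sum_mem fun j _ => B₂.mul_mem (hBB₂ (hg j)) (hyB₂ j)
    have hqI : Im π q 0 := by
      have h2 := Im.sum (π := π) Finset.univ (z := fun j => g j * y j) (w := fun _ => 0)
        fun j _ => Im.mul_zero (hBD (hg j)) (hy0 j)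
      rwa [Finset.sum_const_zero] at h2
    have hqe : f * p ^ l - c * e = p ^ (Λ + 1) * q := by
      rw [hgb, hq, Finset.mul_sum]
      refine Finset.sum_congr rfl fun j _ => ?_
      change g j * b j = p ^ (Λ + 1) * (g j * (b j * (p ^ (Λ + 1))⁻¹))
      have := hpl (Λ + 1)
      field_simp
    have hf'I : Im π (f - p ^ (Λ + 1 - l) * q) fb := by
      have h2 := hfI.sub (Im.mul_zero (D.pow_mem hp.mem (Λ + 1 - l)) hqI)
      rwa [sub_zero] at h2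
    have hf'B : f - p ^ (Λ + 1 - l) * q ∈ B₂ :=
      B₂.sub_mem (hBB₂ hf) (B₂.mul_mem (B₂.pow_mem (hBB₂ (hAB hpA)) _) hqB)
    have hf'u := (tr_unit h hf'I (hB₂V hf'B)).2 ⟨hfb0, hfbW⟩
    refine ⟨_, hf'B, hf'u.1, inv_mem_lo hB₂V (hB₂Q hf'B) hf'u.1 hf'u.2, ?_⟩
    have h3 : p ^ (Λ + 1) = p ^ l * p ^ (Λ + 1 - l) := by
      rw [← pow_add]
      congr 1
      omega
    rw [h3] at hqe
    linear_combination hqe
  obtain ⟨f', hf'B, hf'0, hf'Q, hf'e⟩ := hdiv₂ s₁ e f fb M₁ hΛM (hAB hs₁A) heB hfB hfI hfb0 hfbW hfe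
  obtain ⟨f₂', hf₂'B, hf₂'0, hf₂'Q, hf₂'e⟩ := hdiv₂ β e₂ f₂ f₂b N hΛN (hAB hβA) he₂B hf₂B hf₂I
    hf₂b0 hf₂bW hfe₂
  -- the kernel is generated by the `z i`
  have hyz : ∀ j, y j = ∑ i, (f'⁻¹ * e * G j i) * z i := by
    intro j
    have h1 : p ^ M₁ * f' * b j = e * ∑ i, G j i * x i := by
      rw [hf'e, ← hs₁G j]
      ring
    have h2 : ∀ i, f'⁻¹ * e * G j i * z i =
        f'⁻¹ * (p ^ (Λ + 1 + M₁))⁻¹ * (e * (G j i * x i)) := by
      intro i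
      change f'⁻¹ * e * G j i * (x i * (p ^ (Λ + 1 + M₁))⁻¹) = _
      ring
    simp_rw [h2]
    rw [← Finset.mul_sum, ← Finset.mul_sum, ← h1]
    change b j * (p ^ (Λ + 1))⁻¹ = _
    rw [pow_add p (Λ + 1) M₁]
    have := hpl (Λ + 1)
    have := hpl M₁
    field_simp
  have hcQ : ∀ j i, f'⁻¹ * e * G j i ∈ Q := fun j i =>
    Q.mul_mem (Q.mul_mem hf'Q (hB₂Q (hBB₂ heB))) (hB₂Q (hBB₂ (hAB (hGA j i))))
  have hgenB : ∀ w ∈ B, Im π w 0 → ∃ c : κ → F, (∀ i, c i ∈ Q) ∧ w = ∑ i, c i * z i := by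
    intro w hw hw0
    obtain ⟨g, hg, hwg⟩ := hbgen w hw hw0
    refine ⟨fun i => ∑ j, g j * p ^ (Λ + 1) * (f'⁻¹ * e * G j i), fun i => Q.sum_mem fun j _ =>
      Q.mul_mem (Q.mul_mem (hB₂Q (hBB₂ (hg j))) (Q.pow_mem (hB₂Q (hBB₂ (hAB hpA))) _))
        (hcQ j i), ?_⟩
    have h1 : ∀ j, g j * b j = ∑ i, g j * p ^ (Λ + 1) * (f'⁻¹ * e * G j i) * z i := by
      intro j
      have h2 : b j = p ^ (Λ + 1) * y j := by
        change b j = p ^ (Λ + 1) * (b j * (p ^ (Λ + 1))⁻¹)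
        have := hpl (Λ + 1)
        field_simp
      rw [h2, hyz j, Finset.mul_sum, Finset.mul_sum]
      exact Finset.sum_congr rfl fun i _ => by ring
    rw [hwg]
    simp_rw [h1, Finset.sum_mul]
    exact Finset.sum_comm
  have hgenB₂ := adjoin_gen h (B := B) (B' := B₂) (Q := Q) (hBB₂.trans hB₂Q) hQD hz0
    (fun i => hB₂Q (hzB₂ i)) hB₂B (by
      rintro t (⟨j, rfl⟩ | ⟨i, rfl⟩)
      · exact ⟨_, hcQ j, hyz j⟩
      · refine ⟨Pi.single i 1, fun l => ?_, ?_⟩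
        · by_cases hl : l = i
          · subst hl
            rw [Pi.single_eq_same]
            exact Q.one_mem
          · rw [Pi.single_eq_of_ne hl]
            exact Q.zero_mem
        · rw [Finset.sum_eq_single i]
          · rw [Pi.single_eq_same, one_mul]
          · intro l _ hl
            rw [Pi.single_eq_of_ne hl, zero_mul]
          · intro h; exact absurd (Finset.mem_univ _) h) hgenB
  have hgenQ : ∀ w ∈ Q, Im π w 0 → ∃ c : κ → F, (∀ i, c i ∈ Q) ∧ w = ∑ i, c i * z i := by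
    rintro _ ⟨a, ha, b, hb, hb0, hbV, rfl⟩ hw0
    have hbQ : b⁻¹ ∈ Q := inv_mem_lo hB₂V (hB₂Q hb) hb0 hbV
    have ha0 : Im π a 0 := by
      have h1 := Im.zero_mul hw0 (hB₂D hb)
      rwa [mul_assoc, inv_mul_cancel₀ hb0, mul_one] at h1
    obtain ⟨c, hc, hac⟩ := hgenB₂ a ha ha0
    refine ⟨fun i => c i * b⁻¹, fun i => Q.mul_mem (hc i) hbQ, ?_⟩
    rw [hac, Finset.sum_mul]
    exact Finset.sum_congr rfl fun i _ => by ring
  have hregQ : IsRegularLocalRing Q := by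
    refine regular_core h (B := B₂) hB₂D hB₂V ?_ (fun i => hB₂Q (hzB₂ i)) hz0 hgenQ hxdim ?_
    · intro a ha
      obtain ⟨b, hb, c, hc, hcD, hcπ, rfl⟩ := hfr a ha
      exact ⟨b, hBB₂ (hAB hb), c, hBB₂ (hAB hc), hcD, hcπ, rfl⟩
    · rw [himB₂, ← hQbB]
      exact hregb.reg
  -- the parameters
  have hlo : ∀ w ∈ Qb, ∃ z ∈ lo V.toSubring B, Im π z w := by
    intro w hw
    rw [hQbB, ← imr_lo h hBD hBV] at hw
    exact hw
  choose X hXQ₁ hX using fun i => hlo (xb i) (hregb.mem i)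
  obtain ⟨U₀, hU₀Q₁, hU₀⟩ := hlo ub hub1
  have hQ₁Q : lo V.toSubring B ≤ Q := lo_mono hBB₂
  have hXQ : ∀ i, X i ∈ Q := fun i => hQ₁Q (hXQ₁ i)
  have hxb0 := hregb.ne
  have hX0 : ∀ i, X i ≠ 0 := fun i => (hX i).ne_zero (hxb0 i)
  have hQV : Q ≤ V.toSubring := lo_le hB₂V
  have hubW : ub ∈ W := hQbW hub1
  have hubW' : ub⁻¹ ∈ W := hQbW hub2
  have hU₀u := (tr_unit h hU₀ (hQV (hQ₁Q hU₀Q₁))).2 ⟨hub0, hubW'⟩
  have hU₀i : U₀⁻¹ ∈ Q := inv_mem_lo hB₂V (hQ₁Q hU₀Q₁) hU₀u.1 hU₀u.2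
  have hmoX : mo X η ∈ lo V.toSubring B := mo_mem hXQ₁ fun i => (hη i).le
  have hpB : p ∈ B := hAB hpA
  have hzI : Im π (p - U₀ * mo X η) 0 := by
    have h1 := hp.sub (hU₀.mul (Im.mo h.unit hX hxb0 η))
    rwa [← hpη, sub_self] at h1
  have hzQ₁ : p - U₀ * mo X η ∈ lo V.toSubring B :=
    Subring.sub_mem _ (le_lo _ _ hpB) (Subring.mul_mem _ hU₀Q₁ hmoX)
  obtain ⟨q, hqQ, hqI, hq⟩ : ∃ q ∈ Q, Im π q 0 ∧ p - U₀ * mo X η = p ^ (Λ + 1) * q := by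
    obtain ⟨a, ha, c, hc, hc0, hcV, hac⟩ := hzQ₁
    have hcQ' : c⁻¹ ∈ Q := inv_mem_lo hB₂V (hB₂Q (hBB₂ hc)) hc0 hcV
    have ha0 : Im π a 0 := by
      have h1 := Im.zero_mul hzI (hBD hc)
      rwa [hac, mul_assoc, inv_mul_cancel₀ hc0, mul_one] at h1
    obtain ⟨g, hg, hgb⟩ := hbgen a ha ha0
    have hyI : Im π (∑ j, g j * y j) 0 := by
      have h2 := Im.sum (π := π) Finset.univ (z := fun j => g j * y j) (w := fun _ => 0)
        fun j _ => Im.mul_zero (hBD (hg j)) (hy0 j)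
      rwa [Finset.sum_const_zero] at h2
    refine ⟨(∑ j, g j * y j) * c⁻¹, Q.mul_mem (hB₂Q (B₂.sum_mem fun j _ =>
      B₂.mul_mem (hBB₂ (hg j)) (hyB₂ j))) hcQ', Im.zero_mul hyI (hQD hcQ'), ?_⟩
    rw [hac, hgb, ← mul_assoc, Finset.mul_sum]
    congr 1
    refine Finset.sum_congr rfl fun j _ => ?_
    change g j * b j = p ^ (Λ + 1) * (g j * (b j * (p ^ (Λ + 1))⁻¹))
    have := hpl (Λ + 1)
    field_simp
  have heI : Im π (1 - p ^ Λ * q) 1 := by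
    have h1 := (Im.one (π := π)).sub (Im.mul_zero (D.pow_mem hp.mem Λ) hqI)
    rwa [sub_zero] at h1
  have hpQ : p ∈ Q := hB₂Q (hBB₂ hpB)
  have heQ : 1 - p ^ Λ * q ∈ Q := Q.sub_mem Q.one_mem (Q.mul_mem (Q.pow_mem hpQ _) hqQ)
  have heu := (tr_unit h heI (hQV heQ)).2 ⟨one_ne_zero, by rw [inv_one]; exact W.one_mem⟩
  have heQ' : (1 - p ^ Λ * q)⁻¹ ∈ Q := inv_mem_lo hB₂V heQ heu.1 heu.2
  have huI : Im π (U₀ * (1 - p ^ Λ * q)⁻¹) ub := by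
    have h1 := hU₀.mul (heI.inv h.unit one_ne_zero)
    rwa [inv_one, mul_one] at h1
  have hu0 : U₀ * (1 - p ^ Λ * q)⁻¹ ≠ 0 := mul_ne_zero hU₀u.1 (inv_ne_zero heu.1)
  have hpu : p = U₀ * (1 - p ^ Λ * q)⁻¹ * mo X η := by
    have h1 : p * (1 - p ^ Λ * q) = U₀ * mo X η := by
      rw [pow_succ] at hq
      linear_combination hq
    have h2 := heu.1
    field_simp
    linear_combination h1
  have huQ : U₀ * (1 - p ^ Λ * q)⁻¹ ∈ Q := Q.mul_mem (hQ₁Q hU₀Q₁) heQ'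
  have huQ' : (U₀ * (1 - p ^ Λ * q)⁻¹)⁻¹ ∈ Q := by
    rw [mul_inv, inv_inv]
    exact Q.mul_mem hU₀i heQ
  -- regularity
  have hlocQ : IsLocalRing Q := hregQ.toIsLocalRing
  have hlocb : IsLocalRing Qb := hregb.reg.toIsLocalRing
  have himQ : imr π Q = Qb := by
    rw [hQ, imr_lo h hB₂D hB₂V, himB₂, ← hQbB]
  let θ : Q →+* Qb := (π.comp (Subring.inclusion hQD)).codRestrict Qb (by
    intro z
    rw [← himQ]
    exact ⟨z, z.2, hQD z.2, rfl⟩)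
  have hθI : ∀ z : Q, Im π (z : F) (θ z : L) := fun z => ⟨hQD z.2, rfl⟩
  have hθu : ∀ z : Q, IsUnit (θ z) → IsUnit z := by
    intro z hz
    have h1 := (hregb.isUnit (θ z)).1 hz
    exact (isUnit_lo_iff hB₂V z).2 ((tr_unit h (hθI z) (hQV z.2)).2 h1)
  have hindQ : @IndN Q _ hregQ.toIsLocalRing (Fin n₁) _ (fun i => ⟨X i, hXQ i⟩) := by
    refine indN_lift θ hθu ?_
    have h1 := hregb.ind
    have h2 : (fun i => θ ⟨X i, hXQ i⟩) = fun i => (⟨xb i, hregb.mem i⟩ : Qb) := by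
      funext i
      exact Subtype.ext ((hθI ⟨X i, hXQ i⟩).unique (hX i))
    rw [h2]
    exact h1
  have hregX : RegP V.toSubring Q X :=
    ⟨hQV, hX0, hXQ, hregQ, fun w hw hw0 hwV => inv_mem_lo hB₂V hw hw0 hwV, hindQ⟩
  -- the denominators
  set β₂ := β ^ (k + 1) * p ^ (Λ + 1 + M₁) with hβ₂
  have hβ₂A : β₂ ∈ A := A.mul_mem (A.pow_mem hβA _) (A.pow_mem hpA _)
  have hβ₂0 : β₂ ≠ 0 := mul_ne_zero (pow_ne_zero _ hβ0) (hpl _)
  have hβ₂T : ∀ t ∈ T₂, β₂ * t ∈ A := by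
    rintro t (ht | ⟨j, rfl⟩ | ⟨i, rfl⟩)
    · have h1 : β ^ (k + 1) * p ^ (Λ + 1 + M₁) * t = β ^ k * p ^ (Λ + 1 + M₁) * (t * β) := by
        rw [pow_succ]
        ring
      rw [hβ₂, h1]
      exact A.mul_mem (A.mul_mem (A.pow_mem hβA _) (A.pow_mem hpA _)) (hTβ t ht)
    · have h1 : β ^ (k + 1) * p ^ (Λ + 1 + M₁) * y j = β ^ (k + 1) * b j * p ^ M₁ := by
        change β ^ (k + 1) * p ^ (Λ + 1 + M₁) * (b j * (p ^ (Λ + 1))⁻¹) = _
        rw [pow_add p (Λ + 1) M₁]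
        have := hpl (Λ + 1)
        field_simp
      rw [hβ₂, h1]
      exact A.mul_mem (hβb j (k + 1) (Nat.le_succ k)) (A.pow_mem hpA _)
    · have h1 : β ^ (k + 1) * p ^ (Λ + 1 + M₁) * z i = β ^ (k + 1) * x i := by
        change β ^ (k + 1) * p ^ (Λ + 1 + M₁) * (x i * (p ^ (Λ + 1 + M₁))⁻¹) = _
        have := hpl (Λ + 1 + M₁)
        field_simp
      rw [hβ₂, h1]
      exact A.mul_mem (A.pow_mem hβA _) (hxA i)
  have hβ₂Q : p ^ (N * (k + 1) + (Λ + 1 + M₁)) * β₂⁻¹ ∈ Q := by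
    have h1 : p ^ N * β⁻¹ = e₂ * f₂'⁻¹ := by
      have h2 : p ^ N = β * e₂ * f₂'⁻¹ := by
        rw [← hf₂'e, mul_assoc, mul_inv_cancel₀ hf₂'0, mul_one]
      rw [h2]
      field_simp
    have h3 : p ^ (N * (k + 1) + (Λ + 1 + M₁)) * (β ^ (k + 1) * p ^ (Λ + 1 + M₁))⁻¹ =
        (p ^ N * β⁻¹) ^ (k + 1) := by
      rw [pow_add, pow_mul, mul_pow, inv_pow]
      have := hpl (Λ + 1 + M₁)
      field_simp
    rw [hβ₂, h3, h1]
    exact Q.pow_mem (Q.mul_mem (hB₂Q (hBB₂ he₂B)) hf₂'Q) _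
  have hpX : ∀ i, p ^ 1 * (X i)⁻¹ ∈ Q := by
    intro i
    have h0 : η - Pi.single i 1 = η + -(Pi.single i 1) := sub_eq_add_neg _ _
    have h1 : p ^ 1 * (X i)⁻¹ = U₀ * (1 - p ^ Λ * q)⁻¹ * mo X (η - Pi.single i 1) := by
      rw [pow_one, h0, mo_add hX0, mo_neg, mo_single, ← mul_assoc, ← hpu]
    rw [h1]
    refine Q.mul_mem huQ (mo_mem hXQ fun j => ?_)
    have h2 : (η - Pi.single i 1 : Fin n₁ → ℤ) j = η j - (Pi.single i 1 : Fin n₁ → ℤ) j := rfl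
    have h3 : (Pi.single i 1 : Fin n₁ → ℤ) j ≤ 1 := by
      rw [Pi.single_apply]
      split_ifs
      · exact le_rfl
      · exact zero_le_one
    have h4 := hη j
    rw [h2, Pi.zero_apply]
    linarith
  refine ⟨T₂, n₁, X, xb, U₀ * (1 - p ^ Λ * q)⁻¹, ub, η, β₂, N * (k + 1) + (Λ + 1 + M₁), hT₂f,
    hT₂D, hT₂V, hβ₂A, hβ₂0, hβ₂T, hX, hxb0, hxbV, fun i => hQbW (hregb.mem i), hindb, huI, hub0,
    hubW, hubW', hη, hpu, huQ, huQ', hβ₂Q, hregX, fun i => ?_⟩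
  exact Bd.of_lo hB₂V hβ₂A hβ₂0 hβ₂T hβ₂Q (hXQ i) (hX0 i) (hpX i)

end Pool.Agent.Q299.SS
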