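import Pool.Agent.Q299.SS.A2

/-!
# Lifting multiplicative relations; denominators
-/

set_option autoImplicit false

universe u

namespace Pool.Agent.Q299.SS

open Pool.Agent.W418.LU2 Pool.Agent.TH188.ARC IsLocalRing Pool.Agent.H176.DT
open Pool.Agent.Q299.RM

section rel

variable {F L : Type u} [Field F] [Field L]

/-- Monomials with the same exponents. -/
def MM {ι : Type} [Fintype ι] (y : ι → F) (yb : ι → L) (z : F) (zb : L) : Prop :=
  ∃ ε : ι → ℤ, z = mo y ε ∧ zb = mo yb ε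

variable {ι : Type} [Fintype ι] {y : ι → F} {yb : ι → L}

lemma MM.one : MM y yb 1 1 := ⟨0, (mo_zero y).symm, (mo_zero yb).symm⟩

lemma MM.mul (hy : ∀ i, y i ≠ 0) (hyb : ∀ i, yb i ≠ 0) {z z' : F} {w w' : L} (h : MM y yb z w)
    (h' : MM y yb z' w') : MM y yb (z * z') (w * w') := by
  obtain ⟨ε, rfl, rfl⟩ := h
  obtain ⟨ε', rfl, rfl⟩ := h'
  exact ⟨ε + ε', (mo_add hy ε ε').symm, (mo_add hyb ε ε').symm⟩

lemma MM.inv {z : F} {w : L} (h : MM y yb z w) : MM y yb z⁻¹ w⁻¹ := by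
  obtain ⟨ε, rfl, rfl⟩ := h
  exact ⟨-ε, (mo_neg y ε).symm, (mo_neg yb ε).symm⟩

lemma MM.var [DecidableEq ι] (i : ι) : MM y yb (y i) (yb i) :=
  ⟨Pi.single i 1, (mo_single y i).symm, (mo_single yb i).symm⟩

lemma MM.pow (hy : ∀ i, y i ≠ 0) (hyb : ∀ i, yb i ≠ 0) {z : F} {w : L} (h : MM y yb z w) (n : ℕ) :
    MM y yb (z ^ n) (w ^ n) := by
  induction n with
  | zero => rw [pow_zero, pow_zero]; exact MM.one
  | succ n ih => rw [pow_succ, pow_succ]; exact MM.mul hy hyb ih h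

lemma MM.zpow (hy : ∀ i, y i ≠ 0) (hyb : ∀ i, yb i ≠ 0) {z : F} {w : L} (h : MM y yb z w) (n : ℤ) :
    MM y yb (z ^ n) (w ^ n) := by
  rcases Int.eq_nat_or_neg n with ⟨k, rfl | rfl⟩
  · rw [zpow_natCast, zpow_natCast]
    exact MM.pow hy hyb h k
  · rw [zpow_neg, zpow_neg, zpow_natCast, zpow_natCast]
    exact (MM.pow hy hyb h k).inv

lemma MM.prod (hy : ∀ i, y i ≠ 0) (hyb : ∀ i, yb i ≠ 0) {κ : Type} (S : Finset κ) {z : κ → F}
    {w : κ → L} (h : ∀ k, MM y yb (z k) (w k)) : MM y yb (∏ k ∈ S, z k) (∏ k ∈ S, w k) := by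
  classical
  induction S using Finset.induction_on with
  | empty => rw [Finset.prod_empty, Finset.prod_empty]; exact MM.one
  | insert a S ha ih =>
    rw [Finset.prod_insert ha, Finset.prod_insert ha]
    exact MM.mul hy hyb (h a) ih

lemma MM.mo (hy : ∀ i, y i ≠ 0) (hyb : ∀ i, yb i ≠ 0) {κ : Type} [Fintype κ] {z : κ → F}
    {w : κ → L} (h : ∀ k, MM y yb (z k) (w k)) (δ : κ → ℤ) : MM y yb (mo z δ) (mo w δ) :=
  MM.prod hy hyb Finset.univ fun k => MM.zpow hy hyb (h k) (δ k)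

lemma MM.eq (hy : ∀ i, y i ≠ 0) (hyb : ∀ i, yb i ≠ 0)
    (hR : ∀ ε : ι → ℤ, W418.LU2.mo yb ε = 1 → W418.LU2.mo y ε = 1) {z z' : F} {w : L}
    (h : MM y yb z w) (h' : MM y yb z' w) : z = z' := by
  obtain ⟨ε, rfl, rfl⟩ := h
  obtain ⟨ε', rfl, h2⟩ := h'
  have h3 := hR (ε + -ε') (by
    rw [mo_add hyb, mo_neg, h2]
    exact mul_inv_cancel₀ (mo_ne_zero hyb _))
  rw [mo_add hy, mo_neg] at h3
  exact eq_of_mul_inv_eq_one h3

lemma mo_sum_elim {s : ℕ} (x : Fin s → F) (ϖ : F) (ε : Fin s ⊕ Unit → ℤ) :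
    W418.LU2.mo (Sum.elim x fun _ : Unit => ϖ) ε =
      ϖ ^ ε (Sum.inr ()) * W418.LU2.mo x (fun i => ε (Sum.inl i)) := by
  unfold W418.LU2.mo
  rw [Fintype.prod_sum_type, mul_comm]
  congr 1
  simp

lemma rel_lift {s : ℕ} {ϖ : F} {x : Fin s → F} {ϖb : L} {xb : Fin s → L} {γ0 c : Fin s → ℤ}
    (hc : ∑ i, c i * γ0 i = 1) {M : ℕ} (hM : 0 < M) (h1 : ϖ ^ M = W418.LU2.mo x γ0)
    (h2 : ϖb ^ M = W418.LU2.mo xb γ0) (hx : ∀ i, x i ≠ 0) (hxb : ∀ i, xb i ≠ 0)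
    (hind : ∀ δ : Fin s → ℤ, W418.LU2.mo xb δ = 1 → δ = 0) (a : ℤ) (δ : Fin s → ℤ)
    (h : ϖb ^ a * W418.LU2.mo xb δ = 1) : ϖ ^ a * W418.LU2.mo x δ = 1 := by
  have h3 : W418.LU2.mo xb (a • γ0 + (M : ℤ) • δ) = 1 := by
    rw [mo_add hxb, Pool.Agent.Y67.DT.mo_zsmul, Pool.Agent.Y67.DT.mo_zsmul, zpow_natCast, ← h2]
    have h4 : (ϖb ^ M) ^ a = (ϖb ^ a) ^ M := by
      rw [← zpow_natCast, ← zpow_natCast, ← zpow_mul, ← zpow_mul, mul_comm]
    rw [h4, ← mul_pow, h, one_pow]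
  have h4 := hind _ h3
  have h5 : ∀ i, a * γ0 i + M * δ i = 0 := fun i => by
    have := congrFun h4 i
    simpa using this
  set b : ℤ := -∑ i, c i * δ i with hb
  have h6 : a = M * b := by
    have h7 : ∑ i, c i * (a * γ0 i + M * δ i) = 0 :=
      Finset.sum_eq_zero fun i _ => by rw [h5 i, mul_zero]
    have h8 : ∑ i, c i * (a * γ0 i + M * δ i) = a * (∑ i, c i * γ0 i) + M * ∑ i, c i * δ i := by
      rw [Finset.mul_sum, Finset.mul_sum, ← Finset.sum_add_distrib]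
      exact Finset.sum_congr rfl fun i _ => by ring
    rw [h8, hc] at h7
    rw [hb]
    linarith
  have h7 : δ = -(b • γ0) := by
    funext i
    have h8 := h5 i
    rw [h6] at h8
    have h9 : (M : ℤ) * (b * γ0 i + δ i) = 0 := by linarith
    have h10 : b * γ0 i + δ i = 0 := by
      rcases mul_eq_zero.1 h9 with h | h
      · exact absurd h (by exact_mod_cast hM.ne')
      · exact h
    rw [Pi.neg_apply, Pi.smul_apply, smul_eq_mul]
    linarith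
  rw [h6, h7, mo_neg, Pool.Agent.Y67.DT.mo_zsmul, ← h1, zpow_mul, zpow_natCast]
  refine mul_inv_cancel₀ ?_
  rw [h1]
  exact zpow_ne_zero _ (mo_ne_zero hx _)

end rel

section den

variable {F : Type u} [Field F] {A P : Subring F} {p : F}

/-- The element `f` has a denominator which divides a power of `p`. -/
def Dn (A P : Subring F) (p f : F) : Prop :=
  ∃ e ∈ A, e ≠ 0 ∧ e * f ∈ A ∧ ∃ n : ℕ, p ^ n * e⁻¹ ∈ P

lemma Bd.dn {f : F} (h : Bd A P p f) : Dn A P p f := by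
  obtain ⟨-, e, he, he0, hef, n, h1, -⟩ := h
  exact ⟨e, he, he0, hef, n, h1⟩

lemma exists_comden {T : Set F} (hT : T.Finite) (h : ∀ t ∈ T, Dn A P p t) :
    ∃ e ∈ A, e ≠ 0 ∧ (∀ t ∈ T, e * t ∈ A) ∧ ∃ n : ℕ, p ^ n * e⁻¹ ∈ P := by
  induction T, hT using Set.Finite.induction_on with
  | empty => exact ⟨1, A.one_mem, one_ne_zero, fun t ht => ht.elim, 0, by
      rw [pow_zero, inv_one, mul_one]; exact P.one_mem⟩
  | @insert a T _ _ ih =>
    obtain ⟨e, he, he0, heT, n, hn⟩ := ih fun t ht => h t (Set.mem_insert_of_mem _ ht)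
    obtain ⟨e', he', he0', hea, n', hn'⟩ := h a (Set.mem_insert _ _)
    refine ⟨e * e', A.mul_mem he he', mul_ne_zero he0 he0', ?_, n + n', ?_⟩
    · rintro t (rfl | ht)
      · rw [mul_assoc]
        exact A.mul_mem he hea
      · rw [mul_comm e, mul_assoc]
        exact A.mul_mem he' (heT t ht)
    · have : p ^ (n + n') * (e * e')⁻¹ = p ^ n * e⁻¹ * (p ^ n' * e'⁻¹) := by
        rw [pow_add, mul_inv]
        ring
      rw [this]
      exact P.mul_mem hn hn'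

variable {K : Type u} [Field K] {B Q : Subring K} {q : K}

lemma Bd.map {φ : F →+* K} (hA : ∀ a ∈ A, φ a ∈ B) (hP : ∀ a ∈ P, φ a ∈ Q) {N : ℕ}
    (hq : q ^ N = φ p) {f : F} (h : Bd A P p f) : Bd B Q q (φ f) := by
  obtain ⟨h0, e, he, he0, hef, n, h1, h2⟩ := h
  refine ⟨(_root_.map_ne_zero φ).2 h0, φ e, hA e he, (_root_.map_ne_zero φ).2 he0, by
    rw [← map_mul]; exact hA _ hef, N * n, ?_, ?_⟩
  · rw [pow_mul, hq, ← map_pow, ← map_inv₀, ← map_mul]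
    exact hP _ h1
  · rw [pow_mul, hq, ← map_pow, ← map_mul, ← map_inv₀, ← map_mul]
    exact hP _ h2

end den

section comap

variable {F L F' L' : Type u} [Field F] [Field L] [Field F'] [Field L'] {D : Subring F}
  {π : D →+* L} {D' : Subring F'} {π' : D' →+* L'}

lemma tr_comap {φ : F →+* F'} {φb : L →+* L'} (hu : ∀ a : D, π a ≠ 0 → (a : F)⁻¹ ∈ D)
    (hc : ∀ z w, Im π z w → Im π' (φ z) (φb w)) {W' : ValuationSubring L'}
    {V' : ValuationSubring F'} (h : Tr D' π' W' V') :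
    Tr D π (W'.comap φb) (V'.comap φ) := by
  refine ⟨hu, fun a => ?_, fun a => ?_⟩
  · exact tr_mem h (hc _ _ ⟨a.2, rfl⟩)
  · rw [Pool.Agent.H176.DT.comap_lt, Pool.Agent.H176.DT.comap_lt]
    exact tr_lt h (hc _ _ ⟨a.2, rfl⟩)

end comap

end Pool.Agent.Q299.SS
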