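import Pool.Agent.Q299.SS.A3
import Pool.Agent.Q299.RM.Mod2
import Pool.Agent.H176.DT.H12

/-!
# Semistable models at the points over a regular point of the generic fibre
-/

set_option autoImplicit false
set_option linter.unusedSectionVars false

universe u

namespace Pool.Agent.Q299.SS

open Pool.Agent.W418.LU2 Pool.Agent.TH188.ARC IsLocalRing Pool.Agent.H176.DT
open Pool.Agent.Q299.RM Polynomial

variable {F L : Type u} [Field F] [Field L]

lemma Im.natCast {D : Subring F} {π : D →+* L} (n : ℕ) : Im π (n : F) (n : L) :=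
  ⟨natCast_mem D n, map_natCast π n⟩

/-- Semistable models. -/
theorem ss_pt (v : Valuation L NNReal) (O : Subring F) {W₀ : Set F} (hWf : W₀.Finite) {w : F}
    (hw : w ∈ W₀) (hw0 : w ≠ 0) {D : Subring F} {π : D →+* L}
    (hu : ∀ a : D, π a ≠ 0 → (a : F)⁻¹ ∈ D) (hreg : IsRegularLocalRing D)
    [IsNoetherianRing (ch O W₀ w)] (hAD : ch O W₀ w ≤ D)
    (hAv : ∀ z ∈ ch O W₀ w, ∀ zb, Im π z zb → v zb ≤ 1)
    (hfr : ∀ a ∈ D, ∃ b ∈ ch O W₀ w, ∃ c ∈ ch O W₀ w, ∃ hc : c ∈ D,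
      π ⟨c, hc⟩ ≠ 0 ∧ a = b * c⁻¹)
    (hK : ∀ z : F, ∃ a ∈ ch O W₀ w, ∃ b ∈ ch O W₀ w, b ≠ 0 ∧ z = a * b⁻¹)
    {p : F} {pb : L} (hpO : p ∈ O) (hp : Im π p pb) (hpb : pb ≠ 0) (hp1 : v pb < 1)
    (hdiv : ∀ q : ℕ, q.Prime → v (q : L) < 1 → ∀ z : L, v z ^ q ≠ v pb)
    (hSU : SU v.valuationSubring (imr π (ch O W₀ w))) :
    ∃ d N₀ : ℕ, 0 < d ∧ v (d : L) = 1 ∧ ∀ N : ℕ, N₀ ≤ N → d ∣ N →
      ∀ {F' L' : Type u} [Field F'] [Field L'] [Algebra F F'] [Algebra L L'] (D' : Subring F')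
        (π' : D' →+* L') (V' : ValuationSubring F') (W' : ValuationSubring L') (ϖ : F'),
        Tr D' π' W' V' → (∀ z zb, Im π z zb → Im π' (algebraMap F F' z) (algebraMap L L' zb)) →
        W'.comap (algebraMap L L') = v.valuationSubring → ϖ ∈ D' → ϖ ^ N = algebraMap F F' p →
        (∀ z : F', z ∈ Subfield.closure (Set.range (algebraMap F F') ∪ {ϖ})) →
        ∃ (Y : Set F') (d' n' : ℕ), Y.Finite ∧
          Y ⊆ ((Submodule.span (Orm O ϖ) (algebraMap F F' '' W₀)) ^ d' :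
            Submodule (Orm O ϖ) F') ∧
          (∀ z ∈ (Submodule.span (Orm O ϖ) (algebraMap F F' '' W₀)) ^ d',
            ϖ ^ n' * z ∈ Submodule.span (Orm O ϖ) Y) ∧
          ∃ w' ∈ bu (algebraMap F F' '' W₀) Y, w' ≠ 0 ∧
            ch (Orm O ϖ) (bu (algebraMap F F' '' W₀) Y) w' ≤ D' ∧
            ch (Orm O ϖ) (bu (algebraMap F F' '' W₀) Y) w' ≤ V'.toSubring ∧
            ∃ P : Subring F',
              lo V'.toSubring (ch (Orm O ϖ) (bu (algebraMap F F' '' W₀) Y) w') = P ∧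
              ∃ (_ : IsRegularLocalRing P) (n : ℕ) (y : Fin n → P) (S : Finset (Fin n)),
                Ideal.span (Set.range y) = maximalIdeal P ∧ ringKrullDim P = n ∧
                S.Nonempty ∧ ϖ = ∏ i ∈ S, (y i : F') := by
  classical
  obtain ⟨V, hV⟩ := exists_tr D π v.valuationSubring hu
  set A := ch O W₀ w with hA
  have hAV : A ≤ V.toSubring := fun z hz =>
    (tr_mem hV (Im.of_mem (hAD hz))).2 (hAv z hz _ (Im.of_mem (hAD hz)))
  have hpA : p ∈ A := Subring.subset_closure (Or.inl hpO)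
  have hpW : ∀ z : L, ∃ n : ℕ, pb ^ n * z ∈ v.valuationSubring := by
    intro z
    obtain ⟨n, hn⟩ := exists_pow_lt_of_lt_one (show (0 : NNReal) < (v z + 1)⁻¹ by positivity) hp1
    refine ⟨n, ?_⟩
    rw [vs_mem, map_mul, map_pow]
    calc v pb ^ n * v z ≤ (v z + 1)⁻¹ * v z := mul_le_mul_left hn.le _
      _ ≤ (v z + 1)⁻¹ * (v z + 1) := mul_le_mul_right (le_self_add) _
      _ = 1 := inv_mul_cancel₀ (by positivity)
  obtain ⟨T, s, X, xb, u, ub, γ, β, n₀, hTf, hTD, hTV, hβA, hβ0, hTβ, hX, hxb0, hxbV, hxbW, hindb,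
    hu', hub0, hubW, hubW', hγ0, hpu, huP, huP', hβP, hregX, hBd⟩ :=
    core_ss hV hreg hAD hAV hfr hpA hp hpb hpW hSU
  have hX0 := hregX.ne
  have hvub : v ub = 1 := (vs_one v ub).1 ((val_one_iff _ ub).2 ⟨hub0, hubW, hubW'⟩)
  have hvx : ∀ i, v (xb i) < 1 := fun i => vs_lt v (hxbW i) (hxbV i)
  have hvind : ∀ δ : Fin s → ℤ, v (mo xb δ) = 1 → δ = 0 := fun δ h => hindb δ ((vs_one v _).2 h)
  have hmoI : ∀ δ, Im π (mo X δ) (mo xb δ) := fun δ => Im.mo hu hX hxb0 δ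
  have hpb' : pb = ub * mo xb γ := by
    have h1 := hu'.mul (hmoI γ)
    rw [← hpu] at h1
    exact hp.unique h1
  have hvγ : v (mo xb γ) = v pb := by rw [hpb', map_mul, hvub, one_mul]
  have hγ0' : γ ≠ 0 := by
    intro h0
    rw [h0, mo_zero, map_one] at hvγ
    rw [← hvγ] at hp1
    exact lt_irrefl _ hp1
  obtain ⟨d, γ0, c, hd, hγd, hc⟩ := exists_content γ hγ0'
  have hγe : γ = (d : ℤ) • γ0 := funext fun i => hγd i
  have hmoγ : mo xb γ = mo xb γ0 ^ d := by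
    rw [hγe, Pool.Agent.Y67.DT.mo_zsmul, zpow_natCast]
  have hmoXγ : mo X γ = mo X γ0 ^ d := by
    rw [hγe, Pool.Agent.Y67.DT.mo_zsmul, zpow_natCast]
  have hvnat : ∀ n : ℕ, v (n : L) ≤ 1 := fun n => natCast_mem v.valuationSubring n
  have hvd : ∀ n : ℕ, n ∣ d → n ≠ 0 → v (n : L) = 1 := by
    intro n
    induction n using induction_on_primes with
    | zero => exact fun _ h => absurd rfl h
    | one => intro _ _; rw [Nat.cast_one, map_one]
    | prime_mul q a hq ih =>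
      intro hdvd hne
      rw [Nat.cast_mul, map_mul, ih (dvd_of_mul_left_dvd hdvd) (right_ne_zero_of_mul hne), mul_one]
      by_contra hcon
      have h1 : v (q : L) < 1 := lt_of_le_of_ne (hvnat q) hcon
      obtain ⟨e, he⟩ := dvd_of_mul_right_dvd hdvd
      refine hdiv q hq h1 (mo xb γ0 ^ e) ?_
      rw [← map_pow, ← pow_mul, mul_comm e q, ← he, ← hmoγ, hvγ]
  have hlt : v (mo xb γ0) < 1 := by
    by_contra hcon
    push Not at hcon
    have h1 : 1 ≤ v (mo xb γ0) ^ d := one_le_pow₀ hcon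
    rw [← map_pow, ← hmoγ, hvγ] at h1
    exact absurd hp1 (not_lt.2 h1)
  obtain ⟨N1, hN1⟩ := p_comb6 v xb hxb0 hvx hvind γ0 ⟨c, hc⟩ hlt
  refine ⟨d, d * (N1 + 1), hd, hvd d dvd_rfl hd.ne', ?_⟩
  rintro N hN ⟨M, rfl⟩ F' L' _ _ _ _ D' π' V' W' ϖ hV' hcomp hW' hϖD hϖ hgen
  have hM1 : N1 + 1 ≤ M := Nat.le_of_mul_le_mul_left hN hd
  have hM0 : 0 < M := by omega
  have hN0 : 0 < d * M := Nat.mul_pos hd hM0
  set φ := algebraMap F F' with hφ
  set φb := algebraMap L L' with hφb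
  have hφ0 : ∀ {z : F}, z ≠ 0 → φ z ≠ 0 := fun h => (_root_.map_ne_zero φ).2 h
  have hφb0 : ∀ {z : L}, z ≠ 0 → φb z ≠ 0 := fun h => (_root_.map_ne_zero φb).2 h
  have hp0 : p ≠ 0 := hp.ne_zero hpb
  have hϖ0 : ϖ ≠ 0 := by
    rintro rfl
    rw [zero_pow hN0.ne'] at hϖ
    exact hφ0 hp0 hϖ.symm
  set ϖb : L' := π' ⟨ϖ, hϖD⟩ with hϖbdef
  have hϖI : Im π' ϖ ϖb := ⟨hϖD, rfl⟩
  have hϖb : ϖb ^ (d * M) = φb pb := by
    have h1 := hϖI.pow (d * M)
    rw [hϖ] at h1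
    exact h1.unique (hcomp _ _ hp)
  have hϖb0 : ϖb ≠ 0 := by
    intro h0
    rw [h0, zero_pow hN0.ne'] at hϖb
    exact hφb0 hpb hϖb.symm
  have hu'' := hV'.unit
  have hmoX0 : mo X γ0 ≠ 0 := mo_ne_zero hX0 _
  have hmox0 : mo xb γ0 ≠ 0 := mo_ne_zero hxb0 _
  set ω : F' := ϖ ^ M * (φ (mo X γ0))⁻¹ with hω
  set ωb : L' := ϖb ^ M * (φb (mo xb γ0))⁻¹ with hωb
  have hωI : Im π' ω ωb :=
    (hϖI.pow M).mul ((hcomp _ _ (hmoI γ0)).inv hu'' (hφb0 hmox0))
  have hωd : ω ^ d = φ u := by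
    rw [hω, mul_pow, ← pow_mul, mul_comm M d, hϖ, hpu, hmoXγ, inv_pow, map_mul, map_pow, mul_assoc,
      mul_inv_cancel₀ (pow_ne_zero _ (hφ0 hmoX0)), mul_one]
  have hωbd : ωb ^ d = φb ub := by
    have h1 := hωI.pow d
    rw [hωd] at h1
    exact h1.unique (hcomp _ _ hu')
  have hω0 : ω ≠ 0 := mul_ne_zero (pow_ne_zero _ hϖ0) (inv_ne_zero (hφ0 hmoX0))
  have hωb0 : ωb ≠ 0 := mul_ne_zero (pow_ne_zero _ hϖb0) (inv_ne_zero (hφb0 hmox0))
  have hWone : ∀ z : L, W'.valuation (φb z) = 1 ↔ v z = 1 := fun z => by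
    rw [hφb, ← comap_one, hW', vs_one]
  have hωbW : W'.valuation ωb = 1 := by
    have h1 : W'.valuation ωb ^ d = 1 := by
      rw [← map_pow, hωbd, hWone]
      exact hvub
    exact (pow_eq_one_iff.1 h1).resolve_right hd.ne'
  have hωbu : ∀ n : ℤ, W'.valuation (ωb ^ n) = 1 := fun n => by rw [map_zpow₀, hωbW, one_zpow]
  have hWV : ∀ z zb, Im π' z zb → W'.valuation zb = 1 → V'.valuation z = 1 := by
    intro z zb hz hzb
    obtain ⟨h1, h2, h3⟩ := (val_one_iff _ _).1 hzb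
    have h4 := (tr_mem hV' hz).2 h2
    have h5 := (tr_unit hV' hz h4).2 ⟨h1, h3⟩
    exact (val_one_iff _ _).2 ⟨h5.1, h4, h5.2⟩
  have hωV : V'.valuation ω = 1 := hWV _ _ hωI hωbW
  set x' : Fin s → L' := fun i => ωb ^ c i * φb (xb i) with hx'
  set X' : Fin s → F' := fun i => ω ^ c i * φ (X i) with hX'
  have hX'I : ∀ i, Im π' (X' i) (x' i) := fun i =>
    (Im.zpow hu'' hωI hωb0 (c i)).mul (hcomp _ _ (hX i))
  have hx'0 : ∀ i, x' i ≠ 0 := fun i => mul_ne_zero (zpow_ne_zero _ hωb0) (hφb0 (hxb0 i))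
  have hX'0 : ∀ i, X' i ≠ 0 := fun i => mul_ne_zero (zpow_ne_zero _ hω0) (hφ0 (hX0 i))
  have hϖM : ϖ ^ M = mo X' γ0 := by
    rw [hX', mo_mul_fun, mo_zpow_const hω0, hc, zpow_one, ← map_mo, hω, mul_assoc,
      inv_mul_cancel₀ (hφ0 hmoX0), mul_one]
  have hϖbM : ϖb ^ M = mo x' γ0 := by
    rw [hx', mo_mul_fun, mo_zpow_const hωb0, hc, zpow_one, ← map_mo, hωb, mul_assoc,
      inv_mul_cancel₀ (hφb0 hmox0), mul_one]
  obtain ⟨mb, Ae, hmb0, hmbV, hmbV', hxm, hAe, hprod, hmm⟩ := hN1 M (by omega) hM0 W' hW' x'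
    (fun i => ⟨ωb ^ c i, zpow_ne_zero _ hωb0, ((val_one_iff _ _).1 (hωbu _)).2.1,
      ((val_one_iff _ _).1 (hωbu _)).2.2, rfl⟩) ϖb hϖbM
  choose nn gg hgg using hmm
  -- lifting the relations
  have hind' : ∀ δ : Fin s → ℤ, mo x' δ = 1 → δ = 0 := by
    intro δ hδ
    refine hvind δ ((hWone _).1 ?_)
    have h1 : mo x' δ = ωb ^ (∑ i, c i * δ i) * φb (mo xb δ) := by
      rw [hx', mo_mul_fun, mo_zpow_const hωb0, map_mo]
    have h2 : W'.valuation (mo x' δ) = 1 := by rw [hδ, map_one]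
    rw [h1, map_mul, hωbu, one_mul] at h2
    exact h2
  let y : Fin s ⊕ Unit → F' := Sum.elim X' fun _ => ϖ
  let yb : Fin s ⊕ Unit → L' := Sum.elim x' fun _ => ϖb
  have hy : ∀ i, y i ≠ 0 := by
    rintro (i | i)
    · exact hX'0 i
    · exact hϖ0
  have hyb : ∀ i, yb i ≠ 0 := by
    rintro (i | i)
    · exact hx'0 i
    · exact hϖb0
  have hR : ∀ ε : Fin s ⊕ Unit → ℤ, mo yb ε = 1 → mo y ε = 1 := by
    intro ε hε
    rw [mo_sum_elim] at hε ⊢
    exact rel_lift hc hM0 hϖM hϖbM hX'0 hx'0 hind' _ _ hε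
  set m : Fin s → F' := fun j => ϖ ^ nn j * mo X' (gg j) with hm
  have hMx : ∀ i, MM y yb (X' i) (x' i) := fun i => MM.var (y := y) (yb := yb) (Sum.inl i)
  have hMϖ : MM y yb ϖ ϖb := MM.var (y := y) (yb := yb) (Sum.inr ())
  have hMm : ∀ j, MM y yb (m j) (mb j) := by
    intro j
    rw [hgg j]
    exact MM.mul hy hyb (MM.zpow hy hyb hMϖ _) (MM.mo hy hyb hMx _)
  have hxm' : ∀ i, X' i = ∏ j, m j ^ Ae i j := by
    intro i
    refine MM.eq hy hyb hR (hMx i) ?_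
    rw [hxm i]
    exact MM.prod hy hyb _ fun j => MM.pow hy hyb (hMm j) _
  have hprod' : ∏ j, m j = ϖ := by
    refine MM.eq hy hyb hR (w := ϖb) ?_ hMϖ
    rw [← hprod]
    exact MM.prod hy hyb _ hMm
  have hmI : ∀ j, Im π' (m j) (mb j) := by
    intro j
    rw [hgg j]
    exact (Im.zpow hu'' hϖI hϖb0 _).mul (Im.mo hu'' hX'I hx'0 _)
  have hm0 : ∀ j, m j ≠ 0 := fun j => (hmI j).ne_zero (hmb0 j)
  have hmV : ∀ j, m j ∈ V' := fun j => (tr_mem hV' (hmI j)).2 (hmbV j)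
  have hmV' : ∀ j, (m j)⁻¹ ∉ V' := fun j h =>
    hmbV' j ((tr_mem hV' ((hmI j).inv hu'' (hmb0 j))).1 h)
  have hs : 0 < s := by
    rw [Nat.pos_iff_ne_zero]
    rintro rfl
    rw [Finset.univ_eq_empty, Finset.sum_empty] at hc
    exact zero_ne_one hc
  -- the local ring
  set C : Subring F := Subring.closure ((A : Set F) ∪ T) with hC
  have hCD : C ≤ D := by
    rw [hC, Subring.closure_le]
    rintro z (hz | hz)
    · exact hAD hz
    · exact hTD z hz
  have hCV0 : C ≤ V.toSubring := by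
    rw [hC, Subring.closure_le]
    rintro z (hz | hz)
    · exact hAV hz
    · exact hTV z hz
  have hTr : Tr D π v.valuationSubring (V'.comap (algebraMap F F')) := by
    rw [← hW']
    exact tr_comap hu hcomp hV'
  have hregC : RegP (V'.comap (algebraMap F F')).toSubring
      (lo (V'.comap (algebraMap F F')).toSubring C) X := by
    rw [lo_tr hV hTr hCD hCV0]
    exact regP_tr hV hTr (lo_le_D hV hCD hCV0) hregX
  have hCV : C ≤ (V'.comap (algebraMap F F')).toSubring := tr_le hV hTr hCD hCV0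
  have hloC : lo (V'.comap (algebraMap F F')).toSubring C = PP V A T := lo_tr hV hTr hCD hCV0
  have hCK : ∀ a : F, ∃ b ∈ C, b ≠ 0 ∧ a * b ∈ C := by
    intro a
    obtain ⟨a, ha, b, hb, hb0, rfl⟩ := hK a
    refine ⟨b, Subring.subset_closure (Or.inl hb), hb0, ?_⟩
    rw [mul_assoc, inv_mul_cancel₀ hb0, mul_one]
    exact Subring.subset_closure (Or.inl ha)
  have hu0 : u ≠ 0 := hu'.ne_zero hub0
  have hϖm : ϖ ∈ Subfield.closure (Set.range (algebraMap F F') ∪ Set.range m) := by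
    rw [← hprod']
    exact prod_mem fun j _ => Subfield.subset_closure (Or.inr ⟨j, rfl⟩)
  have halg : Algebra.IsAlgebraic F F' := by
    have hint : IsIntegral F ϖ := by
      refine ⟨Polynomial.X ^ (d * M) - Polynomial.C p, monic_X_pow_sub_C _ hN0.ne', ?_⟩
      rw [eval₂_sub, eval₂_X_pow, eval₂_C, hϖ, sub_self]
    refine ⟨fun z => ?_⟩
    obtain ⟨f, rfl⟩ := gen_alg hint (hgen z)
    exact (adjoin_le_integralClosure hint (aeval_mem_adjoin_singleton F ϖ)).isAlgebraic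
  have hP := ss_reg p_et6 p_tor6 V' C hCV hCK X hregC
    (fun i h => hxbV i ((tr_mem hTr ((hX i).inv hu (hxb0 i))).1 h)) ω d
    hd u hu0 (by rw [hloC]; exact huP) (by rw [hloC]; exact huP') hωd
    (hWV _ _ (Im.natCast d) (by
      rw [← map_natCast (algebraMap L L'), hWone]
      exact hvd d dvd_rfl hd.ne')) c m Ae hm0 hmV hmV'
    (fun i => by rw [← hxm' i, hX']; exact mul_comm _ _) hAe (fun z => by
      have h1 : Subfield.closure (Set.range (algebraMap F F') ∪ {ϖ}) ≤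
          Subfield.closure (Set.range (algebraMap F F') ∪ Set.range m) := by
        rw [Subfield.closure_le]
        rintro z (hz | hz)
        · exact Subfield.subset_closure (Or.inl hz)
        · rw [Set.mem_singleton_iff.1 hz]
          exact hϖm
      exact h1 (hgen z)) halg
  -- the model
  set O' : Subring F' := Orm O ϖ with hO'
  set A' : Subring F' := ch O' (φ '' W₀) (φ w) with hA'
  set T' : Set F' := φ '' T ∪ ({ω} ∪ Set.range m) with hT'
  have hϖO : ϖ ∈ O' := Subring.subset_closure (Or.inr rfl)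
  have hOA : ∀ z ∈ O', z ∈ A' := fun z hz => Subring.subset_closure (Or.inl hz)
  have hAA : ∀ a ∈ A, φ a ∈ A' := by
    have h1 : A ≤ A'.comap φ := by
      rw [hA, Subring.closure_le]
      rintro z (hz | ⟨v, hv, rfl⟩)
      · exact hOA _ (Subring.subset_closure (Or.inl ⟨z, hz, rfl⟩))
      · refine Subring.subset_closure (Or.inr ⟨φ v, ⟨v, hv, rfl⟩, ?_⟩)
        rw [map_div₀]
    exact fun a ha => h1 ha
  have hcl : Subring.closure ((A' : Set F') ∪ T') =
      Subring.closure ((C.map (algebraMap F F') : Set F') ∪ ({ω} ∪ Set.range m)) := by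
    have h1 : ∀ a ∈ C, φ a ∈ Subring.closure ((A' : Set F') ∪ T') := by
      have h2 : C ≤ (Subring.closure ((A' : Set F') ∪ T')).comap φ := by
        rw [hC, Subring.closure_le]
        rintro z (hz | hz)
        · exact Subring.subset_closure (Or.inl (hAA z hz))
        · exact Subring.subset_closure (Or.inr (Or.inl ⟨z, hz, rfl⟩))
      exact fun a ha => h2 ha
    have h3 : ∀ a ∈ C, φ a ∈ Subring.closure ((C.map (algebraMap F F') : Set F') ∪
        ({ω} ∪ Set.range m)) := fun a ha => Subring.subset_closure (Or.inl ⟨a, ha, rfl⟩)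
    have h4 : ϖ ∈ Subring.closure ((C.map (algebraMap F F') : Set F') ∪
        ({ω} ∪ Set.range m)) := by
      rw [← hprod']
      exact Subring.prod_mem _ fun j _ => Subring.subset_closure (Or.inr (Or.inr ⟨j, rfl⟩))
    apply le_antisymm
    · rw [Subring.closure_le]
      rintro z (hz | ⟨a, ha, rfl⟩ | hz)
      · refine (?_ : A' ≤ _) hz
        rw [hA', Subring.closure_le]
        rintro z (hz | ⟨_, ⟨v, hv, rfl⟩, rfl⟩)
        · refine (?_ : O' ≤ _) hz
          rw [hO', Subring.closure_le]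
          rintro z (⟨a, ha, rfl⟩ | hz)
          · exact h3 a (Subring.subset_closure (Or.inl (Subring.subset_closure (Or.inl ha))))
          · rw [Set.mem_singleton_iff.1 hz]
            exact h4
        · rw [← map_div₀]
          exact h3 _ (Subring.subset_closure (Or.inl (Subring.subset_closure
            (Or.inr ⟨v, hv, rfl⟩))))
      · exact h3 a (Subring.subset_closure (Or.inr ha))
      · exact Subring.subset_closure (Or.inr hz)
    · rw [Subring.closure_le]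
      rintro z (⟨a, ha, rfl⟩ | hz)
      · exact h1 a ha
      · exact Subring.subset_closure (Or.inr (Or.inr hz))
  have hP' : RegP V'.toSubring (PP V' A' T') m := by
    unfold PP
    rw [hcl]
    exact hP
  have hclV : Subring.closure ((A' : Set F') ∪ T') ≤ V'.toSubring := (le_lo _ _).trans hP'.PA
  have hA'P : A' ≤ PP V' A' T' := fun z hz => le_lo _ _ (Subring.subset_closure (Or.inl hz))
  have hCP : ∀ a ∈ PP V A T, φ a ∈ PP V' A' T' := by
    intro a ha
    have h1 : φ a ∈ lo V'.toSubring (C.map (algebraMap F F')) := by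
      rw [lo_map (algebraMap F F') (A' := (V'.comap (algebraMap F F')).toSubring)
        (fun e => Iff.rfl)]
      rw [hloC]
      exact ⟨a, ha, rfl⟩
    have h2 : lo V'.toSubring (C.map (algebraMap F F')) ≤ PP V' A' T' := by
      unfold PP
      rw [hcl]
      exact lo_mono fun z hz => Subring.subset_closure (Or.inl hz)
    exact h2 h1
  -- denominators
  have hBϖ : Bd A' (PP V' A' T') ϖ ϖ := Bd.self (hOA _ hϖO) (hA'P (hOA _ hϖO)) hϖ0
  have hBX : ∀ i, Bd A' (PP V' A' T') ϖ (φ (X i)) := fun i => Bd.map hAA hCP hϖ (hBd i)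
  have hBω : Bd A' (PP V' A' T') ϖ ω := by
    rw [hω, map_mo]
    exact (hBϖ.pow M).mul (Bd.mo hBX γ0).inv
  have hBX' : ∀ i, Bd A' (PP V' A' T') ϖ (X' i) := fun i => (hBω.zpow (c i)).mul (hBX i)
  have hBm : ∀ j, Bd A' (PP V' A' T') ϖ (m j) := fun j =>
    (hBϖ.zpow _).mul (Bd.mo hBX' _)
  have hT'f : T'.Finite := (hTf.image _).union
    ((Set.finite_singleton _).union (Set.finite_range _))
  obtain ⟨β', hβ'A, hβ'0, hβ'T, n', hn'⟩ := exists_comden (A := A') (P := PP V' A' T') (p := ϖ) hT'f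
    (by
      rintro z (⟨a, ha, rfl⟩ | hz | ⟨j, rfl⟩)
      · refine ⟨φ β, hAA _ hβA, hφ0 hβ0, by rw [← map_mul]; exact hAA _ (hTβ a ha), d * M * n₀, ?_⟩
        rw [pow_mul, hϖ, ← map_pow, ← map_inv₀, ← map_mul]
        exact hCP _ hβP
      · rw [Set.mem_singleton_iff.1 hz]
        exact hBω.dn
      · exact (hBm j).dn)
  have hA'D : A' ≤ D' := by
    rw [hA', Subring.closure_le]
    rintro z (hz | ⟨_, ⟨v, hv, rfl⟩, rfl⟩)
    · refine (?_ : O' ≤ D') hz
      rw [hO', Subring.closure_le]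
      rintro z (⟨a, ha, rfl⟩ | hz)
      · exact (hcomp _ _ (Im.of_mem (hAD (Subring.subset_closure (Or.inl ha))))).mem
      · rw [Set.mem_singleton_iff.1 hz]
        exact hϖD
    · rw [← map_div₀]
      exact (hcomp _ _ (Im.of_mem (hAD (Subring.subset_closure (Or.inr ⟨v, hv, rfl⟩))))).mem
  have hclD : Subring.closure ((A' : Set F') ∪ T') ≤ D' := by
    rw [Subring.closure_le]
    rintro z (hz | ⟨a, ha, rfl⟩ | hz | ⟨j, rfl⟩)
    · exact hA'D hz
    · exact (hcomp _ _ (Im.of_mem (hTD a ha))).mem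
    · rw [Set.mem_singleton_iff.1 hz]
      exact hωI.mem
    · exact (hmI j).mem
  have hPD : PP V' A' T' ≤ D' := lo_le_D hV' hclD hclV
  obtain ⟨Y, d', n'', h1, h2, h3, w', h4, h5, h6, h7⟩ :=
    model_stage' V' O' (fun a ha => hclV (Subring.subset_closure (Or.inl (hOA a ha))))
      (hWf.image φ) (w := φ w) ⟨w, hw, rfl⟩ (hφ0 hw0)
      (fun z hz => hclV (Subring.subset_closure (Or.inl (Subring.subset_closure
        (Or.inr ⟨z, hz, rfl⟩)))))
      (p := ϖ) hϖO hT'f (fun t ht => hclV (Subring.subset_closure (Or.inr ht))) hβ'A hβ'0 hβ'T hn'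
  have hle : ch O' (bu (φ '' W₀) Y) w' ≤ PP V' A' T' := by
    rw [← h7]
    exact le_lo _ _
  refine ⟨Y, d', n'', h1, h2, h3, w', h4, h5, hle.trans hPD, hle.trans hP'.PA, _, h7, ?_⟩
  obtain ⟨k, z, hF⟩ := p_ext hP' hmV'
  obtain ⟨hPA, hmem, hRr, hinv, hspan, hdim⟩ := hF
  let e := Fintype.equivFin (Fin s ⊕ Fin k)
  refine ⟨hRr, Fintype.card (Fin s ⊕ Fin k), fun i => ⟨_, hmem (e.symm i)⟩,
    Finset.univ.image fun j : Fin s => e (Sum.inl j), ?_, hdim, ?_, ?_⟩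
  · rw [← hspan]
    congr 1
    ext w
    constructor
    · rintro ⟨i, rfl⟩
      exact ⟨_, rfl⟩
    · rintro ⟨i, rfl⟩
      exact ⟨e i, by simp⟩
  · exact ⟨_, Finset.mem_image.2 ⟨⟨0, hs⟩, Finset.mem_univ _, rfl⟩⟩
  · rw [Finset.prod_image fun a _ b _ h => Sum.inl_injective (e.injective h), ← hprod']
    exact Finset.prod_congr rfl fun j _ => by simp

end Pool.Agent.Q299.SS
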