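import Pool.Agent.Q299.SS.A4
import Pool.Agent.H176.DT.H13

/-!
# The points over a point of the generic fibre
-/

set_option autoImplicit false

universe u

namespace Pool.Agent.Q299.SS

open Pool.Agent.W418.LU2 Pool.Agent.TH188.ARC IsLocalRing Pool.Agent.H176.DT
open Pool.Agent.Q299.RM

variable {K κ : Type u} [Field K] [Field κ]

/-- The existence of the points over a point of the generic fibre after the adjunction of a root. -/
theorem exists_lift {D : Subring K} {ψ : D →+* κ} (hinv : ∀ b : D, ψ b ≠ 0 → (b : K)⁻¹ ∈ D)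
    (hsurj : Function.Surjective ψ) (V : ValuationSubring κ) {A : Subring K} (hAD : A ≤ D)
    (hfrac : ∀ z ∈ D, ∃ a ∈ A, ∃ b : D, (b : K) ∈ A ∧ ψ b ≠ 0 ∧ z = a * (b : K)⁻¹) {p : K}
    (hp : p ∈ A) {N : ℕ} (hN : 0 < N) :
    ∃ (K' : Type u) (_ : Field K') (_ : Algebra K K') (ϖ : K'), ϖ ^ N = algebraMap K K' p ∧
      (∀ z : K', z ∈ Subfield.closure (Set.range (algebraMap K K') ∪ {ϖ})) ∧
      ∀ A' : Subring K', A.map (algebraMap K K') ≤ A' →
        A' ≤ Subring.closure ((A.map (algebraMap K K') : Set K') ∪ {ϖ}) →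
        ∃ (κ' : Type u) (_ : Field κ') (_ : Algebra κ κ') (D' : Subring K') (ψ' : D' →+* κ')
          (V' : ValuationSubring κ'), V'.comap (algebraMap κ κ') = V ∧ A' ≤ D' ∧
          (∀ z ∈ D', ∃ a ∈ A', ∃ b : D', (b : K') ∈ A' ∧ ψ' b ≠ 0 ∧ z = a * (b : K')⁻¹) ∧
          (∀ b : D', ψ' b ≠ 0 → (b : K')⁻¹ ∈ D') ∧ Function.Surjective ψ' ∧
          ∀ z : D, ∃ h : algebraMap K K' z ∈ D', ψ' ⟨_, h⟩ = algebraMap κ κ' (ψ z) := by
  obtain ⟨V₁, hV₁⟩ := exists_tr D ψ ⊤ hinv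
  obtain ⟨K', _, _, V₁', ϖ, hV₁', hϖ, hgen⟩ := exists_root V₁ p hN
  refine ⟨K', inferInstance, inferInstance, ϖ, hϖ, hgen, fun A' hAA' hA' => ?_⟩
  set φ := algebraMap K K' with hφ
  have hDV : ∀ z ∈ D, z ∈ V₁ := fun z hz =>
    (tr_mem hV₁ (Im.of_mem (π := ψ) hz)).2 (ValuationSubring.mem_top _)
  have hmem : ∀ z : K, φ z ∈ V₁' ↔ z ∈ V₁ := by
    intro z
    have h1 : φ z ∈ V₁' ↔ z ∈ V₁'.comap (algebraMap K K') := Iff.rfl
    rw [h1, hV₁']
  have hϖV : ϖ ∈ V₁' := by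
    rw [← ValuationSubring.valuation_le_one_iff]
    have h1 : V₁'.valuation ϖ ^ N ≤ 1 := by
      rw [← map_pow, hϖ, ValuationSubring.valuation_le_one_iff, hmem]
      exact hDV _ (hAD hp)
    by_contra hcon
    exact absurd h1 (not_le.2 (one_lt_pow₀ (not_le.1 hcon) hN.ne'))
  have hA'V : A' ≤ V₁'.toSubring := by
    refine hA'.trans ?_
    rw [Subring.closure_le]
    rintro z (⟨a, ha, rfl⟩ | hz)
    · exact (hmem a).2 (hDV a (hAD ha))
    · rw [Set.mem_singleton_iff.1 hz]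
      exact hϖV
  set D' : Subring K' := lo V₁'.toSubring A' with hD'
  have hloc : IsLocalRing D' := isLocalRing_lo (loc_V V₁') hA'V
  have hD'V : D' ≤ V₁'.toSubring := lo_le hA'V
  have hunit : ∀ x : D', IsUnit x ↔ (x : K') ≠ 0 ∧ (x : K')⁻¹ ∈ V₁'.toSubring := fun x =>
    isUnit_lo_iff hA'V x
  have hDD' : ∀ z ∈ D, φ z ∈ D' := by
    intro z hz
    obtain ⟨a, ha, b, hb, hb0, rfl⟩ := hfrac z hz
    have hb0' : (b : K) ≠ 0 := (Im.of_mem (π := ψ) b.2).ne_zero hb0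
    refine ⟨φ a, hAA' ⟨a, ha, rfl⟩, φ b, hAA' ⟨b, hb, rfl⟩, (_root_.map_ne_zero φ).2 hb0', ?_, ?_⟩
    · rw [← map_inv₀]
      exact (hmem _).2 (hDV _ (hinv b hb0))
    · rw [map_mul, map_inv₀]
  let ι : D →+* D' := (φ.comp D.subtype).codRestrict D' fun z => hDD' z z.2
  let f : D →+* ResidueField D' := (residue D').comp ι
  have hker : RingHom.ker ψ ≤ RingHom.ker f := by
    intro z hz
    rw [RingHom.mem_ker] at hz ⊢
    change residue D' (ι z) = 0
    rw [residue_eq_zero_iff, mem_maximalIdeal, mem_nonunits_iff, hunit]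
    rintro ⟨h1, h2⟩
    have h3 : V₁.valuation (z : K) < 1 := (hV₁.lt z).2 (by rw [hz, map_zero]; exact zero_lt_one)
    have h4 : (z : K) ≠ 0 := fun h => h1 (by
      change φ (z : K) = 0
      rw [h, map_zero])
    refine (val_lt_iff h4).1 h3 ((hmem _).1 ?_)
    rw [map_inv₀]
    exact h2
  let g : κ →+* ResidueField D' := RingHom.liftOfSurjective ψ hsurj ⟨f, hker⟩
  have hg : ∀ z : D, g (ψ z) = f z := fun z =>
    RingHom.liftOfSurjective_comp_apply ψ hsurj ⟨f, hker⟩ z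
  let _ : Algebra κ (ResidueField D') := g.toAlgebra
  obtain ⟨V', hV'⟩ := ext_val (L := ResidueField D') V
  have hres : ∀ b : D', residue D' b ≠ 0 → (b : K') ≠ 0 ∧ (b : K')⁻¹ ∈ V₁'.toSubring := by
    intro b hb
    rw [← hunit]
    by_contra hcon
    exact hb ((residue_eq_zero_iff _).2 ((mem_maximalIdeal _).2 hcon))
  refine ⟨ResidueField D', inferInstance, g.toAlgebra, D', residue D', V', hV', le_lo _ _, ?_, ?_,
    residue_surjective, fun z => ⟨hDD' z z.2, (hg z).symm⟩⟩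
  · rintro _ ⟨a, ha, b, hb, hb0, hbV, rfl⟩
    refine ⟨a, ha, ⟨b, le_lo _ _ hb⟩, hb, ?_, rfl⟩
    intro h1
    rw [residue_eq_zero_iff, mem_maximalIdeal, mem_nonunits_iff, hunit] at h1
    exact h1 ⟨hb0, hbV⟩
  · intro b hb
    have h1 := hres b hb
    exact inv_mem_lo hA'V b.2 h1.1 h1.2

end Pool.Agent.Q299.SS
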